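import Pool.Agent.TH631.SC.Grp

/-! # Finite presentation of the group -/

set_option autoImplicit false

namespace Pool.Agent.TH631.SC

open Rg

namespace FPr

section Gen

variable {Q : Type*} [Group Q] (a s t : Q)

/-- the conjugates of the first generator -/
def A (i : ℕ) : Q := s ^ i * a * (s ^ i)⁻¹

variable {a s t}

theorem A_succ (i : ℕ) : A a s (i + 1) = s * A a s i * s⁻¹ := by
  unfold A
  rw [pow_succ']
  group

variable (ha3 : a ^ 3 = 1) (hst : s * t = t * s)
  (h1 : a * (s * a * s⁻¹) = (s * a * s⁻¹) * a)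
  (h2 : a * (s * a * s⁻¹) * (t * a * t⁻¹) = 1)

include ha3 in
theorem A_cube (i : ℕ) : A a s i ^ 3 = 1 := by
  have : A a s i ^ 3 = s ^ i * a ^ 3 * (s ^ i)⁻¹ := by
    unfold A
    rw [conj_pow]
  rw [this, ha3, mul_one, mul_inv_cancel]

include hst h2 in
theorem A_t (i : ℕ) : t * A a s i * t⁻¹ = (A a s i * A a s (i + 1))⁻¹ := by
  have e0 : t * a * t⁻¹ = (a * (s * a * s⁻¹))⁻¹ := by
    rw [eq_inv_iff_mul_eq_one]
    have := congrArg (fun z => (t * a * t⁻¹) * z * (t * a * t⁻¹)⁻¹) h2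
    simp only [mul_one, mul_inv_cancel] at this
    rw [← this]
    group
  have hc : Commute t (s ^ i) := (show Commute t s from hst.symm).pow_right i
  have e1 : t * A a s i * t⁻¹ = s ^ i * (t * a * t⁻¹) * (s ^ i)⁻¹ := by
    have hc' : t * s ^ i = s ^ i * t := hc
    have hc'' : (s ^ i)⁻¹ * t⁻¹ = t⁻¹ * (s ^ i)⁻¹ := by
      rw [← mul_inv_rev, hc', mul_inv_rev]
    unfold A
    calc t * (s ^ i * a * (s ^ i)⁻¹) * t⁻¹ = (t * s ^ i) * a * ((s ^ i)⁻¹ * t⁻¹) := by
          simp only [mul_assoc]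
      _ = (s ^ i * t) * a * (t⁻¹ * (s ^ i)⁻¹) := by rw [hc', hc'']
      _ = _ := by simp only [mul_assoc]
  rw [e1, e0]
  unfold A
  rw [pow_succ]
  group

include hst h1 h2 in
theorem comm_A (j : ℕ) : (∀ i, Commute (A a s i) (A a s (i + j))) ∧
    (∀ i, Commute (A a s i) (A a s (i + (j + 1)))) := by
  induction j with
  | zero =>
    refine ⟨fun i => Commute.refl _, fun i => ?_⟩
    have e : A a s (i + (0 + 1)) = s ^ i * (s * a * s⁻¹) * (s ^ i)⁻¹ := by
      unfold A
      rw [zero_add, pow_succ]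
      group
    rw [e]
    unfold A
    have hc : Commute a (s * a * s⁻¹) := h1
    exact hc.conj (s ^ i) |> fun h => by simpa [MulAut.conj_apply] using h
  | succ j ih =>
    refine ⟨ih.2, fun i => ?_⟩
    have c1 : Commute (t * A a s i * t⁻¹) (t * A a s (i + (j + 1)) * t⁻¹) := by
      have := ih.2 i
      exact this.conj t |> fun h => by simpa [MulAut.conj_apply] using h
    rw [A_t hst h2, A_t hst h2] at c1
    have c2 : Commute (A a s i * A a s (i + 1)) (A a s (i + (j + 1)) * A a s (i + (j + 1) + 1)) :=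
      Commute.inv_inv_iff.1 c1
    have e1 : i + (j + 1) = (i + 1) + j := by ring
    have e2 : i + (j + 1) + 1 = (i + 1) + (j + 1) := by ring
    have c3 : Commute (A a s (i + 1)) (A a s (i + (j + 1)) * A a s (i + (j + 1) + 1)) := by
      refine Commute.mul_right ?_ ?_
      · rw [e1]; exact ih.1 _
      · rw [e2]; exact ih.2 _
    have c4 : Commute (A a s i) (A a s (i + (j + 1)) * A a s (i + (j + 1) + 1)) := by
      have : A a s i = (A a s i * A a s (i + 1)) * (A a s (i + 1))⁻¹ := by group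
      rw [this]
      exact Commute.mul_left c2 c3.inv_left
    have c5 : A a s (i + (j + 1 + 1)) =
        (A a s (i + (j + 1)))⁻¹ * (A a s (i + (j + 1)) * A a s (i + (j + 1) + 1)) := by
      rw [inv_mul_cancel_left]; rfl
    rw [c5]
    exact Commute.mul_right (ih.2 i).inv_right c4

include hst h1 h2 in
theorem comm_A' (i j : ℕ) : Commute (A a s i) (A a s j) := by
  rcases le_total i j with h | h
  · obtain ⟨k, rfl⟩ := Nat.exists_eq_add_of_le h
    exact (comm_A hst h1 h2 k).1 i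
  · obtain ⟨k, rfl⟩ := Nat.exists_eq_add_of_le h
    exact ((comm_A hst h1 h2 k).1 j).symm

variable (a s) in
/-- the subgroup generated by the conjugates -/
def C : Subgroup Q := Subgroup.closure (Set.range (A a s))

theorem s_C {x : Q} (hx : x ∈ C a s) : s * x * s⁻¹ ∈ C a s := by
  unfold C at hx
  induction hx using Subgroup.closure_induction with
  | mem x h =>
    obtain ⟨i, rfl⟩ := h
    rw [← A_succ]
    exact Subgroup.subset_closure ⟨_, rfl⟩
  | one => rw [mul_one, mul_inv_cancel]; exact one_mem _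
  | mul x y _ _ hx hy =>
    have : s * (x * y) * s⁻¹ = (s * x * s⁻¹) * (s * y * s⁻¹) := by group
    rw [this]
    exact mul_mem hx hy
  | inv x _ hx =>
    have : s * x⁻¹ * s⁻¹ = (s * x * s⁻¹)⁻¹ := by group
    rw [this]
    exact inv_mem hx

include hst h2 in
theorem t_C {x : Q} (hx : x ∈ C a s) : t * x * t⁻¹ ∈ C a s := by
  unfold C at hx
  induction hx using Subgroup.closure_induction with
  | mem x h =>
    obtain ⟨i, rfl⟩ := h
    rw [A_t hst h2]
    exact inv_mem (mul_mem (Subgroup.subset_closure ⟨_, rfl⟩) (Subgroup.subset_closure ⟨_, rfl⟩))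
  | one => rw [mul_one, mul_inv_cancel]; exact one_mem _
  | mul x y _ _ hx hy =>
    have : t * (x * y) * t⁻¹ = (t * x * t⁻¹) * (t * y * t⁻¹) := by group
    rw [this]
    exact mul_mem hx hy
  | inv x _ hx =>
    have : t * x⁻¹ * t⁻¹ = (t * x * t⁻¹)⁻¹ := by group
    rw [this]
    exact inv_mem hx

variable (a s t) in
/-- membership in the union -/
def B (g : Q) : Prop := ∃ n : ℕ, (s * t) ^ n * g * ((s * t) ^ n)⁻¹ ∈ C a s

include hst h2 in
theorem B_mono {g : Q} {n m : ℕ} (h : (s * t) ^ n * g * ((s * t) ^ n)⁻¹ ∈ C a s) (hnm : n ≤ m) :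
    (s * t) ^ m * g * ((s * t) ^ m)⁻¹ ∈ C a s := by
  induction m, hnm using Nat.le_induction with
  | base => exact h
  | succ m _ ih =>
    have : (s * t) ^ (m + 1) * g * ((s * t) ^ (m + 1))⁻¹ =
        s * (t * ((s * t) ^ m * g * ((s * t) ^ m)⁻¹) * t⁻¹) * s⁻¹ := by
      rw [pow_succ', mul_inv_rev, mul_inv_rev]
      simp only [mul_assoc]
    rw [this]
    exact s_C (t_C hst h2 ih)

include hst h2 in
theorem B_mul {g h : Q} (hg : B a s t g) (hh : B a s t h) : B a s t (g * h) := by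
  obtain ⟨n, hn⟩ := hg
  obtain ⟨m, hm⟩ := hh
  refine ⟨max n m, ?_⟩
  have : (s * t) ^ (max n m) * (g * h) * ((s * t) ^ (max n m))⁻¹ =
      ((s * t) ^ (max n m) * g * ((s * t) ^ (max n m))⁻¹) *
      ((s * t) ^ (max n m) * h * ((s * t) ^ (max n m))⁻¹) := by group
  rw [this]
  exact mul_mem (B_mono hst h2 hn (le_max_left _ _)) (B_mono hst h2 hm (le_max_right _ _))

theorem B_inv {g : Q} (hg : B a s t g) : B a s t g⁻¹ := by
  obtain ⟨n, hn⟩ := hg
  refine ⟨n, ?_⟩
  have : (s * t) ^ n * g⁻¹ * ((s * t) ^ n)⁻¹ = ((s * t) ^ n * g * ((s * t) ^ n)⁻¹)⁻¹ := by group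
  rw [this]
  exact inv_mem hn

theorem B_of {g : Q} (hg : g ∈ C a s) : B a s t g := ⟨0, by simpa using hg⟩

include hst in
theorem comm_st : Commute (s * t) s := by
  exact Commute.mul_left (Commute.refl s) (show Commute t s from hst.symm)

include hst in
theorem comm_st' : Commute (s * t) t := by
  exact Commute.mul_left (show Commute s t from hst) (Commute.refl t)

include hst in
theorem B_s {g : Q} (hg : B a s t g) : B a s t (s * g * s⁻¹) := by
  obtain ⟨n, hn⟩ := hg
  refine ⟨n, ?_⟩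
  have hc : (s * t) ^ n * s = s * (s * t) ^ n := (comm_st hst).pow_left n
  have hc' : s⁻¹ * ((s * t) ^ n)⁻¹ = ((s * t) ^ n)⁻¹ * s⁻¹ := by
    rw [← mul_inv_rev, hc, mul_inv_rev]
  have : (s * t) ^ n * (s * g * s⁻¹) * ((s * t) ^ n)⁻¹ =
      s * ((s * t) ^ n * g * ((s * t) ^ n)⁻¹) * s⁻¹ := by
    calc (s * t) ^ n * (s * g * s⁻¹) * ((s * t) ^ n)⁻¹
        = ((s * t) ^ n * s) * g * (s⁻¹ * ((s * t) ^ n)⁻¹) := by simp only [mul_assoc]
      _ = (s * (s * t) ^ n) * g * (((s * t) ^ n)⁻¹ * s⁻¹) := by rw [hc, hc']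
      _ = _ := by simp only [mul_assoc]
  rw [this]
  exact s_C hn

include hst h2 in
theorem B_t {g : Q} (hg : B a s t g) : B a s t (t * g * t⁻¹) := by
  obtain ⟨n, hn⟩ := hg
  refine ⟨n, ?_⟩
  have hc : (s * t) ^ n * t = t * (s * t) ^ n := (comm_st' hst).pow_left n
  have hc' : t⁻¹ * ((s * t) ^ n)⁻¹ = ((s * t) ^ n)⁻¹ * t⁻¹ := by
    rw [← mul_inv_rev, hc, mul_inv_rev]
  have : (s * t) ^ n * (t * g * t⁻¹) * ((s * t) ^ n)⁻¹ =
      t * ((s * t) ^ n * g * ((s * t) ^ n)⁻¹) * t⁻¹ := by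
    calc (s * t) ^ n * (t * g * t⁻¹) * ((s * t) ^ n)⁻¹
        = ((s * t) ^ n * t) * g * (t⁻¹ * ((s * t) ^ n)⁻¹) := by simp only [mul_assoc]
      _ = (t * (s * t) ^ n) * g * (((s * t) ^ n)⁻¹ * t⁻¹) := by rw [hc, hc']
      _ = _ := by simp only [mul_assoc]
  rw [this]
  exact t_C hst h2 hn

include hst h2 in
theorem B_s' {g : Q} (hg : B a s t g) : B a s t (s⁻¹ * g * s) := by
  obtain ⟨n, hn⟩ := hg
  refine ⟨n + 1, ?_⟩
  have : (s * t) ^ (n + 1) * (s⁻¹ * g * s) * ((s * t) ^ (n + 1))⁻¹ =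
      t * ((s * t) ^ n * g * ((s * t) ^ n)⁻¹) * t⁻¹ := by
    have hc : (s * t) ^ n * t = t * (s * t) ^ n := (comm_st' hst).pow_left n
    have hc' : t⁻¹ * ((s * t) ^ n)⁻¹ = ((s * t) ^ n)⁻¹ * t⁻¹ := by
      rw [← mul_inv_rev, hc, mul_inv_rev]
    have e1 : (s * t) ^ (n + 1) * s⁻¹ = t * (s * t) ^ n := by
      rw [pow_succ, ← hc, mul_assoc]
      congr 1
      rw [hst]; group
    have e2 : s * ((s * t) ^ (n + 1))⁻¹ = ((s * t) ^ n)⁻¹ * t⁻¹ := by
      have := congrArg (fun z => z⁻¹) e1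
      simpa [mul_inv_rev] using this
    calc (s * t) ^ (n + 1) * (s⁻¹ * g * s) * ((s * t) ^ (n + 1))⁻¹
        = ((s * t) ^ (n + 1) * s⁻¹) * g * (s * ((s * t) ^ (n + 1))⁻¹) := by simp only [mul_assoc]
      _ = (t * (s * t) ^ n) * g * (((s * t) ^ n)⁻¹ * t⁻¹) := by rw [e1, e2]
      _ = _ := by simp only [mul_assoc]
  rw [this]
  exact t_C hst h2 hn

include hst in
theorem B_t' {g : Q} (hg : B a s t g) : B a s t (t⁻¹ * g * t) := by
  obtain ⟨n, hn⟩ := hg
  refine ⟨n + 1, ?_⟩
  have : (s * t) ^ (n + 1) * (t⁻¹ * g * t) * ((s * t) ^ (n + 1))⁻¹ =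
      s * ((s * t) ^ n * g * ((s * t) ^ n)⁻¹) * s⁻¹ := by
    have hc : (s * t) ^ n * s = s * (s * t) ^ n := (comm_st hst).pow_left n
    have e1 : (s * t) ^ (n + 1) * t⁻¹ = s * (s * t) ^ n := by
      rw [pow_succ, ← hc, mul_assoc]
      congr 1
      group
    have e2 : t * ((s * t) ^ (n + 1))⁻¹ = ((s * t) ^ n)⁻¹ * s⁻¹ := by
      have := congrArg (fun z => z⁻¹) e1
      simpa [mul_inv_rev] using this
    calc (s * t) ^ (n + 1) * (t⁻¹ * g * t) * ((s * t) ^ (n + 1))⁻¹
        = ((s * t) ^ (n + 1) * t⁻¹) * g * (t * ((s * t) ^ (n + 1))⁻¹) := by simp only [mul_assoc]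
      _ = (s * (s * t) ^ n) * g * (((s * t) ^ n)⁻¹ * s⁻¹) := by rw [e1, e2]
      _ = _ := by simp only [mul_assoc]
  rw [this]
  exact s_C hn

variable (a s t) in
/-- normal forms -/
def P (g : Q) : Prop := ∃ (α : Q) (i j : ℤ), B a s t α ∧ g = α * s ^ i * t ^ j

include hst h2 in
theorem P_all (hgen : Subgroup.closure ({a, s, t} : Set Q) = ⊤) (g : Q) : P a s t g := by
  have key : ∀ g : Q, (∀ x, P a s t x ↔ P a s t (g * x)) := by
    intro g
    have hg : g ∈ Subgroup.closure ({a, s, t} : Set Q) := by rw [hgen]; exact Subgroup.mem_top _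
    induction hg using Subgroup.closure_induction with
    | mem g h =>
      rcases h with rfl | rfl | rfl
      · have hB : B g s t g := B_of (Subgroup.subset_closure ⟨0, by simp [A]⟩)
        intro x
        constructor
        · rintro ⟨α, i, j, hα, rfl⟩
          exact ⟨g * α, i, j, B_mul hst h2 hB hα, by simp only [mul_assoc]⟩
        · rintro ⟨α, i, j, hα, e⟩
          refine ⟨g⁻¹ * α, i, j, B_mul hst h2 (B_inv hB) hα, ?_⟩
          rw [mul_assoc, mul_assoc, ← mul_assoc α, ← e, inv_mul_cancel_left]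
      · intro x
        constructor
        · rintro ⟨α, i, j, hα, rfl⟩
          refine ⟨g * α * g⁻¹, 1 + i, j, B_s hst hα, ?_⟩
          rw [zpow_add, zpow_one]
          group
        · rintro ⟨α, i, j, hα, e⟩
          refine ⟨g⁻¹ * α * g, -1 + i, j, B_s' hst h2 hα, ?_⟩
          have : x = g⁻¹ * (α * g ^ i * t ^ j) := by rw [← e, inv_mul_cancel_left]
          rw [this, zpow_add, zpow_neg, zpow_one]
          group
      · have hc : ∀ i : ℤ, g * s ^ i = s ^ i * g := fun i =>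
          ((show Commute g s from hst.symm).zpow_right i)
        intro x
        constructor
        · rintro ⟨α, i, j, hα, rfl⟩
          refine ⟨g * α * g⁻¹, i, 1 + j, B_t hst h2 hα, ?_⟩
          rw [zpow_add, zpow_one]
          calc g * (α * s ^ i * g ^ j) = g * α * g⁻¹ * (g * s ^ i) * g ^ j := by group
            _ = g * α * g⁻¹ * (s ^ i * g) * g ^ j := by rw [hc]
            _ = _ := by simp only [mul_assoc]
        · rintro ⟨α, i, j, hα, e⟩
          refine ⟨g⁻¹ * α * g, i, -1 + j, B_t' hst hα, ?_⟩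
          have : x = g⁻¹ * (α * s ^ i * g ^ j) := by rw [← e, inv_mul_cancel_left]
          rw [this, zpow_add, zpow_neg, zpow_one]
          calc g⁻¹ * (α * s ^ i * g ^ j) = g⁻¹ * α * (s ^ i * g) * (g⁻¹ * g ^ j) := by group
            _ = g⁻¹ * α * (g * s ^ i) * (g⁻¹ * g ^ j) := by rw [hc]
            _ = _ := by simp only [mul_assoc]
    | one => intro x; rw [one_mul]
    | mul g h _ _ hg hh =>
      intro x
      rw [hh x, hg, mul_assoc]
    | inv g _ hg =>
      intro x
      rw [hg (g⁻¹ * x), mul_inv_cancel_left]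
  have h1' : P a s t 1 := ⟨1, 0, 0, B_of (one_mem _), by simp⟩
  have := (key g 1).1 h1'
  rwa [mul_one] at this

/-! ### injectivity -/

variable (π : Q →* Gm) (πa : π a = Gm.nn 1) (πs : π s = Gm.sg 1 0) (πt : π t = Gm.sg 0 1)

include πs in
theorem pi_spow (i : ℕ) : π (s ^ i) = Gm.sg i 0 := by
  rw [map_pow, πs]
  induction i with
  | zero => rfl
  | succ i ih => rw [pow_succ, ih, Gm.sg_mul]; push_cast; rfl

include πa πs in
theorem pi_A (i : ℕ) : π (A a s i) = Gm.nn (u ^ i) := by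
  unfold A
  rw [map_mul, map_mul, map_inv, pi_spow π πs, πa, ← Gm.conj_nn, Gm.chi, Gm.sg_i, Gm.sg_j, ch,
    mul_one]
  simp [uU_val]

include πa πs in
theorem pi_C {x : Q} (hx : x ∈ C a s) : π x = Gm.nn (π x).n := by
  have : (π x).i = 0 ∧ (π x).j = 0 := by
    unfold C at hx
    induction hx using Subgroup.closure_induction with
    | mem x h => obtain ⟨i, rfl⟩ := h; rw [pi_A π πa πs]; exact ⟨rfl, rfl⟩
    | one => rw [map_one]; exact ⟨rfl, rfl⟩
    | mul x y _ _ hx hy =>
      rw [map_mul, Gm.mul_i, Gm.mul_j, hx.1, hx.2, hy.1, hy.2]; exact ⟨rfl, rfl⟩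
    | inv x _ hx => rw [map_inv, Gm.inv_i, Gm.inv_j, hx.1, hx.2]; exact ⟨rfl, rfl⟩
  exact Gm.eq_nn this.1 this.2

/-- the normal form in the commutative part -/
def E (f : ℕ → Q) (c : ℕ → ℤ) : ℕ → Q
  | 0 => 1
  | n + 1 => E f c n * f n ^ c n

theorem E_comm {f : ℕ → Q} (hf : ∀ i j, Commute (f i) (f j)) (c : ℕ → ℤ) (i n : ℕ) :
    Commute (f i) (E f c n) := by
  induction n with
  | zero => exact Commute.one_right _
  | succ n ih => exact Commute.mul_right ih ((hf i n).zpow_right _)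

theorem E_add {f : ℕ → Q} (hf : ∀ i j, Commute (f i) (f j)) (c c' : ℕ → ℤ) (n : ℕ) :
    E f (fun i => c i + c' i) n = E f c n * E f c' n := by
  induction n with
  | zero => simp [E]
  | succ n ih =>
    simp only [E]
    rw [ih, zpow_add]
    have h : E f c' n * f n ^ c n = f n ^ c n * E f c' n :=
      ((E_comm hf c' n n).zpow_left (c n)).symm
    calc E f c n * E f c' n * (f n ^ c n * f n ^ c' n)
        = E f c n * (E f c' n * f n ^ c n) * f n ^ c' n := by simp only [mul_assoc]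
      _ = E f c n * (f n ^ c n * E f c' n) * f n ^ c' n := by rw [h]
      _ = _ := by simp only [mul_assoc]

theorem E_triv {f : ℕ → Q} {c : ℕ → ℤ} {n : ℕ} (h : ∀ i < n, f i ^ c i = 1) : E f c n = 1 := by
  induction n with
  | zero => rfl
  | succ n ih =>
    simp only [E]
    rw [ih (fun i hi => h i (by omega)), h n (by omega), one_mul]

theorem E_neg {f : ℕ → Q} (hf : ∀ i j, Commute (f i) (f j)) (c : ℕ → ℤ) (n : ℕ) :
    E f (fun i => -c i) n = (E f c n)⁻¹ := by
  rw [eq_inv_iff_mul_eq_one, ← E_add hf]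
  exact E_triv (fun i _ => by simp)

theorem E_ext {f : ℕ → Q} {c : ℕ → ℤ} {n m : ℕ} (hc : ∀ i, n ≤ i → c i = 0) (h : n ≤ m) :
    E f c m = E f c n := by
  induction m, h using Nat.le_induction with
  | base => rfl
  | succ m hm ih =>
    simp only [E]
    rw [ih, hc m hm, zpow_zero, mul_one]

theorem E_single (f : ℕ → Q) (i : ℕ) : E f (fun j => if j = i then 1 else 0) (i + 1) = f i := by
  simp only [E]
  rw [E_triv (fun j hj => by rw [if_neg (by omega), zpow_zero])]
  simp

include hst h1 h2 in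
theorem C_nf {x : Q} (hx : x ∈ C a s) : ∃ (c : ℕ → ℤ) (n : ℕ), (∀ i, n ≤ i → c i = 0) ∧
    x = E (A a s) c n := by
  have hf : ∀ i j, Commute (A a s i) (A a s j) := comm_A' hst h1 h2
  unfold C at hx
  induction hx using Subgroup.closure_induction with
  | mem x h =>
    obtain ⟨i, rfl⟩ := h
    exact ⟨fun j => if j = i then 1 else 0, i + 1, fun j hj => if_neg (by omega),
      (E_single _ i).symm⟩
  | one => exact ⟨fun _ => 0, 0, fun _ _ => rfl, rfl⟩
  | mul x y _ _ hx hy =>
    obtain ⟨c, n, hc, rfl⟩ := hx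
    obtain ⟨c', n', hc', rfl⟩ := hy
    refine ⟨fun i => c i + c' i, max n n', ?_, ?_⟩
    · intro i hi
      change c i + c' i = 0
      rw [hc i (le_trans (le_max_left _ _) hi), hc' i (le_trans (le_max_right _ _) hi), add_zero]
    · rw [E_add hf, E_ext hc (le_max_left n n'), E_ext hc' (le_max_right n n')]
  | inv x _ hx =>
    obtain ⟨c, n, hc, rfl⟩ := hx
    exact ⟨fun i => -c i, n, fun i hi => by
      change -c i = 0
      rw [hc i hi, neg_zero], (E_neg hf c n).symm⟩

open Polynomial in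
include πa πs in
theorem pi_E (c : ℕ → ℤ) (n : ℕ) : π (E (A a s) c n) =
    Gm.nn (algebraMap (ZMod 3)[X] R (∑ i ∈ Finset.range n, Polynomial.C ((c i : ℤ) : ZMod 3) * X ^ i)) := by
  induction n with
  | zero => simp [E, Gm.nn_zero]
  | succ n ih =>
    simp only [E]
    rw [map_mul, ih, Finset.sum_range_succ, map_add, Gm.nn_add]
    congr 1
    rw [map_zpow, pi_A π πa πs]
    have hz : ∀ (z : ℤ) (x : R), Gm.nn x ^ z = Gm.nn ((z : R) * x) := by
      intro z x
      induction z using Int.induction_on with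
      | zero => simp [Gm.nn_zero]
      | succ z ih => rw [zpow_add_one, ih, ← Gm.nn_add]; congr 1; push_cast; ring
      | pred z ih => rw [zpow_sub_one, ih, ← Gm.nn_neg, ← Gm.nn_add]; congr 1; push_cast; ring
    rw [hz, map_mul, map_pow]
    congr 2
    rw [show (Polynomial.C ((c n : ℤ) : ZMod 3)) = (((c n : ℤ)) : (ZMod 3)[X]) from by simp, map_intCast]

open Polynomial in
include ha3 hst h1 h2 πa πs in
theorem inj_C {x : Q} (hx : x ∈ C a s) (h : π x = 1) : x = 1 := by
  obtain ⟨c, n, hc, rfl⟩ := C_nf hst h1 h2 hx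
  rw [pi_E π πa πs, ← Gm.nn_zero] at h
  have h3 := Gm.nn_inj h
  have h4 : (∑ i ∈ Finset.range n, Polynomial.C ((c i : ℤ) : ZMod 3) * X ^ i : (ZMod 3)[X]) = 0 := by
    apply alg_inj
    rw [h3, map_zero]
  apply E_triv
  intro i hi
  have h5 := congrArg (fun q : (ZMod 3)[X] => q.coeff i) h4
  simp only [Polynomial.finsetSum_coeff, Polynomial.coeff_C_mul, Polynomial.coeff_X_pow,
    Polynomial.coeff_zero] at h5
  rw [Finset.sum_eq_single i (fun j _ hj => by rw [if_neg (Ne.symm hj), mul_zero])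
    (fun h => absurd (Finset.mem_range.2 hi) h), if_pos rfl, mul_one] at h5
  rw [ZMod.intCast_zmod_eq_zero_iff_dvd] at h5
  obtain ⟨z, hz⟩ := h5
  rw [hz, zpow_mul]
  have : A a s i ^ ((3 : ℕ) : ℤ) = 1 := by rw [zpow_natCast, A_cube ha3]
  rw [this, one_zpow]

include ha3 hst h1 h2 πa πs πt in
theorem inj (hgen : Subgroup.closure ({a, s, t} : Set Q) = ⊤) : Function.Injective π := by
  rw [injective_iff_map_eq_one]
  intro g hg
  obtain ⟨α, i, j, ⟨n, hn⟩, rfl⟩ := P_all hst h2 hgen g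
  have e1 := pi_C π πa πs hn
  have hi0 : (π α).i = 0 := by
    have := congrArg (fun z : Gm => z.i) e1
    simp only [map_mul, map_inv, Gm.mul_i, Gm.inv_i, Gm.nn_i] at this
    omega
  have hj0 : (π α).j = 0 := by
    have := congrArg (fun z : Gm => z.j) e1
    simp only [map_mul, map_inv, Gm.mul_j, Gm.inv_j, Gm.nn_j] at this
    omega
  have hs : ∀ i : ℤ, π (s ^ i) = Gm.sg i 0 := by
    intro i
    rw [map_zpow, πs]
    induction i using Int.induction_on with
    | zero => rfl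
    | succ z ih => rw [zpow_add_one, ih, Gm.sg_mul, add_zero]
    | pred z ih =>
      rw [zpow_sub_one, ih, mul_inv_eq_iff_eq_mul, Gm.sg_mul]
      congr 1
      ring
  have ht : ∀ i : ℤ, π (t ^ i) = Gm.sg 0 i := by
    intro i
    rw [map_zpow, πt]
    induction i using Int.induction_on with
    | zero => rfl
    | succ z ih => rw [zpow_add_one, ih, Gm.sg_mul, add_zero]
    | pred z ih =>
      rw [zpow_sub_one, ih, mul_inv_eq_iff_eq_mul, Gm.sg_mul]
      congr 1
      ring
  have hi : i = 0 := by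
    have := congrArg (fun z : Gm => z.i) hg
    simp only [map_mul, Gm.mul_i, hs, ht, Gm.sg_i, hi0, Gm.one_i] at this
    omega
  have hj : j = 0 := by
    have := congrArg (fun z : Gm => z.j) hg
    simp only [map_mul, Gm.mul_j, hs, ht, Gm.sg_j, hj0, Gm.one_j] at this
    omega
  subst hi
  subst hj
  rw [zpow_zero, zpow_zero, mul_one, mul_one] at hg ⊢
  have h6 : (s * t) ^ n * α * ((s * t) ^ n)⁻¹ = 1 := by
    apply inj_C ha3 hst h1 h2 π πa πs hn
    rw [map_mul, map_mul, hg, mul_one, map_inv, mul_inv_cancel]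
  rw [mul_inv_eq_one] at h6
  exact mul_eq_left.1 h6

end Gen

/-! ### surjectivity -/

theorem surj (K : Subgroup Gm) (ka : Gm.nn 1 ∈ K) (ks : Gm.sg 1 0 ∈ K) (kt : Gm.sg 0 1 ∈ K) :
    K = ⊤ := by
  rw [eq_top_iff]
  have hsg : ∀ i j : ℤ, Gm.sg i j ∈ K := by
    have h1 : ∀ i : ℤ, Gm.sg i 0 = Gm.sg 1 0 ^ i := by
      intro i
      induction i using Int.induction_on with
      | zero => rfl
      | succ z ih => rw [zpow_add_one, ← ih, Gm.sg_mul, add_zero]
      | pred z ih =>
        rw [zpow_sub_one, ← ih, eq_mul_inv_iff_mul_eq, Gm.sg_mul]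
        congr 1
        ring
    have h2 : ∀ i : ℤ, Gm.sg 0 i = Gm.sg 0 1 ^ i := by
      intro i
      induction i using Int.induction_on with
      | zero => rfl
      | succ z ih => rw [zpow_add_one, ← ih, Gm.sg_mul, add_zero]
      | pred z ih =>
        rw [zpow_sub_one, ← ih, eq_mul_inv_iff_mul_eq, Gm.sg_mul]
        congr 1
        ring
    intro i j
    have : Gm.sg i j = Gm.sg i 0 * Gm.sg 0 j := by
      rw [Gm.sg_mul, add_zero, zero_add]
    rw [this, h1, h2]
    exact mul_mem (zpow_mem ks _) (zpow_mem kt _)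
  have hch : ∀ (i j : ℤ) (x : R), Gm.nn x ∈ K → Gm.nn ((ch i j : R) * x) ∈ K := by
    intro i j x hx
    have := Gm.conj_nn (Gm.sg i j) x
    have e : (Gm.sg i j).chi = (ch i j : R) := rfl
    rw [e] at this
    rw [this]
    exact mul_mem (mul_mem (hsg i j) hx) (inv_mem (hsg i j))
  have hu : ∀ x : R, Gm.nn x ∈ K → Gm.nn (u * x) ∈ K := by
    intro x hx
    have := hch 1 0 x hx
    have e : (ch 1 0 : R) = u := by rw [ch]; simp [uU_val]
    rwa [e] at this
  have hpoly : ∀ q : Polynomial (ZMod 3), Gm.nn (algebraMap _ R q) ∈ K := by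
    intro q
    induction q using Polynomial.induction_on with
    | C c =>
      have hn : ∀ n : ℕ, Gm.nn (n : R) ∈ K := by
        intro n
        induction n with
        | zero => rw [Nat.cast_zero, Gm.nn_zero]; exact one_mem _
        | succ n ih => rw [Nat.cast_succ, Gm.nn_add]; exact mul_mem ih ka
      have : Polynomial.C c = ((c.val : ℕ) : Polynomial (ZMod 3)) := by
        rw [← Polynomial.C_eq_natCast, ZMod.natCast_zmod_val]
      rw [this, map_natCast]
      exact hn _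
    | add p q hp hq => rw [map_add, Gm.nn_add]; exact mul_mem hp hq
    | monomial n c ih =>
      have e : algebraMap _ R (Polynomial.C c * Polynomial.X ^ (n + 1)) =
          u * algebraMap _ R (Polynomial.C c * Polynomial.X ^ n) := by
        rw [pow_succ, ← mul_assoc, map_mul _ _ Polynomial.X, mul_comm]; rfl
      rw [e]
      exact hu _ ih
  have hall : ∀ x : R, Gm.nn x ∈ K := by
    intro x
    obtain ⟨⟨q, ⟨_, n, rfl⟩⟩, hq⟩ := IsLocalization.surj (Submonoid.powers s0) x
    simp only at hq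
    have e : algebraMap _ R (s0 ^ n) = (-1) ^ n * (ch n n : R) := by
      rw [ch, map_pow]
      have : algebraMap _ R s0 = u * (1 + u) := by simp [s0, u]
      rw [this]
      simp only [zpow_natCast, Units.val_mul, Units.val_pow_eq_pow_val, uU_val, vU_val]
      rw [← mul_pow, ← mul_pow]
      congr 1
      ring
    have h1 := hch (-n) (-n) _ (hpoly q)
    rw [← hq, e] at h1
    have e2 : (ch (-n) (-n) : R) * (x * ((-1) ^ n * (ch n n : R))) = (-1) ^ n * x := by
      have := Gm.ch_neg_mul n n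
      linear_combination (x * (-1) ^ n) * this
    rw [e2] at h1
    rcases Nat.even_or_odd n with hn | hn
    · rwa [hn.neg_one_pow, one_mul] at h1
    · rw [hn.neg_one_pow, neg_one_mul, Gm.nn_neg] at h1
      exact (inv_mem_iff).1 h1
  intro g _
  rw [Gm.decomp g]
  exact mul_mem (hall _) (hsg _ _)

/-- the relators -/
noncomputable def gens : Fin 3 → Gm := ![Gm.nn 1, Gm.sg 1 0, Gm.sg 0 1]

/-- the presentation map -/
noncomputable def pm : FreeGroup (Fin 3) →* Gm := FreeGroup.lift gens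

open Classical in
/-- the relators -/
noncomputable def rels : Finset (FreeGroup (Fin 3)) :=
  let a : FreeGroup (Fin 3) := FreeGroup.of 0
  let s : FreeGroup (Fin 3) := FreeGroup.of 1
  let t : FreeGroup (Fin 3) := FreeGroup.of 2
  {a ^ 3, s * t * (t * s)⁻¹, a * (s * a * s⁻¹) * ((s * a * s⁻¹) * a)⁻¹,
    a * (s * a * s⁻¹) * (t * a * t⁻¹)}

theorem pm0 : pm (FreeGroup.of 0) = Gm.nn 1 := by
  rw [pm, FreeGroup.lift_apply_of]; rfl
theorem pm1 : pm (FreeGroup.of 1) = Gm.sg 1 0 := by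
  rw [pm, FreeGroup.lift_apply_of]; rfl
theorem pm2 : pm (FreeGroup.of 2) = Gm.sg 0 1 := by
  rw [pm, FreeGroup.lift_apply_of]; rfl

theorem pm_surj : Function.Surjective pm := by
  rw [← MonoidHom.range_eq_top]
  exact surj _ ⟨_, pm0⟩ ⟨_, pm1⟩ ⟨_, pm2⟩

theorem pm_ker : pm.ker = Subgroup.normalClosure (↑rels : Set (FreeGroup (Fin 3))) := by
  classical
  have hle : Subgroup.normalClosure (↑rels : Set (FreeGroup (Fin 3))) ≤ pm.ker := by
    apply Subgroup.normalClosure_le_normal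
    intro x hx
    rw [Finset.mem_coe, rels] at hx
    simp only [Finset.mem_insert, Finset.mem_singleton] at hx
    have es : (Gm.sg 1 0).chi = u := by
      rw [Gm.chi, Gm.sg_i, Gm.sg_j, ch]
      simp [uU_val]
    have et : (Gm.sg 0 1).chi = -(1 + u) := by
      rw [Gm.chi, Gm.sg_i, Gm.sg_j, ch]
      simp [vU_val]
    rw [SetLike.mem_coe, MonoidHom.mem_ker]
    rcases hx with rfl | rfl | rfl | rfl
    · rw [map_pow, pm0, Gm.nn_cube]
    · rw [map_mul, map_inv, map_mul, map_mul, pm1, pm2, Gm.sg_mul, Gm.sg_mul, mul_inv_eq_one]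
      rfl
    · simp only [map_mul, map_inv, pm0, pm1]
      rw [← Gm.conj_nn, mul_inv_eq_one, Gm.nn_comm]
    · simp only [map_mul, map_inv, pm0, pm1, pm2]
      rw [← Gm.conj_nn, ← Gm.conj_nn, es, et, ← Gm.nn_add, ← Gm.nn_add, ← Gm.nn_zero]
      congr 1
      ring
  refine le_antisymm ?_ hle
  intro x hx
  set N := Subgroup.normalClosure (↑rels : Set (FreeGroup (Fin 3))) with hN
  let pb : FreeGroup (Fin 3) ⧸ N →* Gm := QuotientGroup.lift N pm hle
  have hmem : ∀ r ∈ rels, (QuotientGroup.mk' N) r = 1 := by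
    intro r hr
    rw [QuotientGroup.mk'_apply, QuotientGroup.eq_one_iff]
    exact Subgroup.subset_normalClosure hr
  have m1 := hmem (FreeGroup.of 0 ^ 3) (by simp [rels])
  have m2 := hmem (FreeGroup.of 1 * FreeGroup.of 2 * (FreeGroup.of 2 * FreeGroup.of 1)⁻¹)
    (by simp [rels])
  have m3 := hmem (FreeGroup.of 0 * (FreeGroup.of 1 * FreeGroup.of 0 * (FreeGroup.of 1)⁻¹) *
    ((FreeGroup.of 1 * FreeGroup.of 0 * (FreeGroup.of 1)⁻¹) * FreeGroup.of 0)⁻¹) (by simp [rels])
  have m4 := hmem (FreeGroup.of 0 * (FreeGroup.of 1 * FreeGroup.of 0 * (FreeGroup.of 1)⁻¹) *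
    (FreeGroup.of 2 * FreeGroup.of 0 * (FreeGroup.of 2)⁻¹)) (by simp [rels])
  rw [map_pow] at m1
  rw [map_mul, map_inv, map_mul, map_mul, mul_inv_eq_one] at m2
  rw [map_mul, map_inv, map_mul, map_mul, map_mul, map_mul, map_inv, mul_inv_eq_one] at m3
  simp only [map_mul, map_inv] at m4
  have hgen : Subgroup.closure ({(QuotientGroup.mk' N) (FreeGroup.of 0),
      (QuotientGroup.mk' N) (FreeGroup.of 1), (QuotientGroup.mk' N) (FreeGroup.of 2)} :
      Set (FreeGroup (Fin 3) ⧸ N)) = ⊤ := by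
    have e : ({(QuotientGroup.mk' N) (FreeGroup.of 0),
      (QuotientGroup.mk' N) (FreeGroup.of 1), (QuotientGroup.mk' N) (FreeGroup.of 2)} :
      Set (FreeGroup (Fin 3) ⧸ N)) = (QuotientGroup.mk' N) '' (Set.range FreeGroup.of) := by
      ext y
      constructor
      · rintro (rfl | rfl | rfl)
        · exact ⟨_, ⟨0, rfl⟩, rfl⟩
        · exact ⟨_, ⟨1, rfl⟩, rfl⟩
        · exact ⟨_, ⟨2, rfl⟩, rfl⟩
      · rintro ⟨_, ⟨i, rfl⟩, rfl⟩
        fin_cases i
        · exact Or.inl rfl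
        · exact Or.inr (Or.inl rfl)
        · exact Or.inr (Or.inr rfl)
    rw [e, ← MonoidHom.map_closure, FreeGroup.closure_range_of, ← MonoidHom.range_eq_map,
      MonoidHom.range_eq_top]
    exact QuotientGroup.mk'_surjective N
  have hinj : Function.Injective pb := inj m1 m2 m3 m4 pb pm0 pm1 pm2 hgen
  have : pb ((QuotientGroup.mk' N) x) = pb 1 := by
    rw [map_one]; exact hx
  have h1 := hinj this
  rwa [QuotientGroup.mk'_apply, QuotientGroup.eq_one_iff] at h1

theorem finite_presentation :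
    ∃ (k : ℕ) (φ : FreeGroup (Fin k) →* Gm) (R : Finset (FreeGroup (Fin k))),
        Function.Surjective φ ∧
          φ.ker = Subgroup.normalClosure (↑R : Set (FreeGroup (Fin k))) :=
  ⟨3, pm, rels, pm_surj, pm_ker⟩

end FPr

end Pool.Agent.TH631.SC
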