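import Pool.Agent.TH631.SC.Coch
import Pool.Agent.TH631.SC.FP

/-! # No self-cover of a closed manifold realises the subgroup -/

set_option autoImplicit false

namespace Pool.Agent.TH631.SC

open Topology Set Metric
open Pool.Agent.Helper554.Smith
open Rg
open Pool.Agent.TH631.SC.Cov

theorem nl_pb {M : Type} [MetricSpace M] [CompactSpace M] (F : C(M, M)) {q : ℕ}
    {c : List M → ZMod 3} (h : Nl univ q c) : Nl univ q (pb F c) := by
  obtain ⟨ε, hε, h⟩ := h
  have huc := CompactSpace.uniformContinuous_of_continuous F.continuous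
  rw [Metric.uniformContinuous_iff] at huc
  obtain ⟨δ, hδ, hd⟩ := huc ε hε
  refine ⟨δ, hδ, fun l hl hs => h _ (by simpa using hl) ⟨fun _ _ => mem_univ _, ?_⟩⟩
  intro x hx y hy
  obtain ⟨a, ha, rfl⟩ := List.mem_map.1 hx
  obtain ⟨b, hb, rfl⟩ := List.mem_map.1 hy
  exact hd (hs.2 a ha b hb)

/-- the double pigeonhole -/
theorem pigeon {M : Type} [MetricSpace M] [CompactSpace M] (m n3 n4 : ℕ)
    (hm : n4 * n3 < 3 ^ m)
    (τ4 : (List M → ZMod 3) → Fin n4)
    (h4 : ∀ z : List M → ZMod 3, Coc univ 4 z → ∀ z', Coc univ 4 z' → τ4 z = τ4 z' →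
      Cob univ 4 (z - z'))
    (τ3 : (List M → ZMod 3) → Fin n3)
    (h3 : ∀ z : List M → ZMod 3, Coc univ 3 z → ∀ z', Coc univ 3 z' → τ3 z = τ3 z' →
      Cob univ 3 (z - z'))
    (zf wf : Vm m → (List M → ZMod 3))
    (hz : ∀ c c', zf (c - c') = zf c - zf c') (hw : ∀ c c', wf (c - c') = wf c - wf c')
    (hcoc : ∀ c, Coc univ 4 (zf c)) (F : C(M, M))
    (hdw : ∀ c, Nl univ 4 (d (wf c) - pb F (zf c))) :
    ∃ c : Vm m, c ≠ 0 ∧ ∃ U v : List M → ZMod 3, Nl univ 3 (pb F U - wf c - d v) := by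
  classical
  have hcard : Fintype.card (Fin n4) * n3 < Fintype.card (Vm m) := by
    rw [Fintype.card_fin, Fintype.card_fun, ZMod.card, Fintype.card_fin]
    exact hm
  obtain ⟨y, hy⟩ := Fintype.exists_lt_card_fiber_of_mul_lt_card (fun c => τ4 (zf c)) hcard
  set Sf := Finset.univ.filter (fun c : Vm m => τ4 (zf c) = y) with hSf
  have hne : Sf.Nonempty := Finset.card_pos.1 (by omega)
  obtain ⟨c0, hc0⟩ := hne
  have hmem : ∀ c, c ∈ Sf → τ4 (zf c) = y := fun c hc => (Finset.mem_filter.1 hc).2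
  have hU : ∀ c : Vm m, ∃ U : List M → ZMod 3, c ∈ Sf → Nl univ 4 (zf (c - c0) - d U) := by
    intro c
    by_cases hc : c ∈ Sf
    · obtain ⟨U, hU⟩ := h4 _ (hcoc c) _ (hcoc c0) ((hmem c hc).trans (hmem c0 hc0).symm)
      exact ⟨U, fun _ => by rw [hz]; exact hU⟩
    · exact ⟨0, fun h => absurd h hc⟩
  choose U hU using hU
  have hcard3 : (Finset.univ : Finset (Fin n3)).card < Sf.card := by
    rw [Finset.card_univ, Fintype.card_fin]; exact hy
  obtain ⟨c, hc, c', hc', hne, heq⟩ := Finset.exists_ne_map_eq_of_card_lt_of_maps_to hcard3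
    (f := fun c => τ3 (pb F (U c) - wf (c - c0))) (fun _ _ => Finset.mem_univ _)
  have hcoc3 : ∀ c ∈ Sf, Coc univ 3 (pb F (U c) - wf (c - c0)) := by
    intro c hc
    have e : d (pb F (U c) - wf (c - c0)) =
        -(pb F (zf (c - c0) - d (U c))) - (d (wf (c - c0)) - pb F (zf (c - c0))) := by
      rw [d_sub, d_pb]
      funext l
      simp only [Pi.sub_apply, Pi.neg_apply, pb]
      ring
    rw [Coc, e]
    exact (nl_pb F (hU c hc)).neg.sub (hdw _)
  obtain ⟨v, hv⟩ := h3 _ (hcoc3 c hc) _ (hcoc3 c' hc') heq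
  refine ⟨c - c', sub_ne_zero.2 hne, U c - U c', v, ?_⟩
  have e : pb F (U c - U c') - wf (c - c') - d v =
      pb F (U c) - wf (c - c0) - (pb F (U c') - wf (c' - c0)) - d v := by
    rw [hw, hw, hw]
    funext l
    simp only [Pi.sub_apply, pb]
    ring
  rw [e]
  exact hv

section Core
variable {E M : Type} [TopologicalSpace E] [MetricSpace M] [CompactSpace M]

omit [CompactSpace M] in
/-- iterates of the self-cover -/
theorem iter [MulAction Gm E] (p : C(E, M)) (f : C(M, M)) (hf : IsLocalHomeomorph f) (h : E ≃ₜ E)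
    (hh : ∀ u, p (h u) = f (p u)) (φ : Gm →* Gm) (hφh : ∀ (g : Gm) (u : E), h (g • u) = φ g • h u)
    (k : ℕ) : ∃ (F : C(M, M)) (H : E ≃ₜ E), IsLocalHomeomorph F ∧ (∀ u, p (H u) = F (p u)) ∧
      ∀ (g : Gm) (u : E), H (g • u) = φ^[k] g • H u := by
  induction k with
  | zero =>
    refine ⟨ContinuousMap.id M, Homeomorph.refl E, ?_, fun u => rfl, fun g u => rfl⟩
    exact (Homeomorph.refl M).isLocalHomeomorph
  | succ k ih =>
    obtain ⟨F, H, hF, hH, hφ⟩ := ih
    refine ⟨f.comp F, H.trans h, ?_, ?_, ?_⟩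
    · exact hf.comp hF
    · intro u
      rw [Homeomorph.trans_apply, hh, hH]; rfl
    · intro g u
      rw [Homeomorph.trans_apply, Homeomorph.trans_apply, hφ, hφh, Function.iterate_succ_apply']

omit [CompactSpace M] in
theorem exists_kappa [MulAction Gm E] (p : C(E, M))
    (hpg : ∀ (g : Gm) (u : E), p (g • u) = p u)
    (hfree : ∀ (g : Gm) (u : E), g • u = u → g = 1)
    (htr : ∀ u u' : E, p u = p u' → ∃ g : Gm, g • u = u') (hsurj : Function.Surjective p) :
    ∃ κ : E → Gm, ∀ (g : Gm) (a : E), κ (g • a) = g * κ a := by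
  choose sc hsc using hsurj
  have h1 : ∀ a : E, ∃ g : Gm, g • sc (p a) = a := fun a => htr _ _ (hsc (p a))
  choose κ hκ using h1
  refine ⟨κ, fun g a => ?_⟩
  have h2 := hκ (g • a)
  rw [hpg] at h2
  have h3 : (g * κ a)⁻¹ • κ (g • a) • sc (p a) = sc (p a) := by
    rw [h2, inv_smul_eq_iff, mul_smul, hκ]
  rw [smul_smul] at h3
  have h4 := hfree _ _ h3
  rw [inv_mul_eq_one] at h4
  exact h4.symm

/-- the core contradiction -/
theorem core [LocallyPathConnectedSpace M] [PathConnectedSpace M] [LocallyPathConnectedSpace E]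
    [SimplyConnectedSpace E] [MulAction Gm E] (hs : SLSC M) (hl : LocAc M) (p : C(E, M))
    (hp : IsCoveringMap p) (hsurj : Function.Surjective p)
    (hc : ∀ g : Gm, Continuous (fun u : E => g • u))
    (hpg : ∀ (g : Gm) (u : E), p (g • u) = p u)
    (hfree : ∀ (g : Gm) (u : E), g • u = u → g = 1)
    (htr : ∀ u u' : E, p u = p u' → ∃ g : Gm, g • u = u')
    (f : C(M, M)) (hf : IsLocalHomeomorph f) (h : E ≃ₜ E)
    (hh : ∀ u, p (h u) = f (p u)) (φ : Gm →* Gm) (hφh : ∀ (g : Gm) (u : E), h (g • u) = φ g • h u)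
    (hφ : Function.Injective φ) (hr : ∀ g : Gm, g ∈ φ.range ↔ ev g.n = 0) : False := by
  obtain ⟨n4, τ4, h4⟩ := ft_univ hl 4
  obtain ⟨n3, τ3, h3⟩ := ft_univ hl 3
  obtain ⟨m, hm⟩ : ∃ m : ℕ, n4 * n3 < 3 ^ m := ⟨n4 * n3, Nat.lt_pow_self (by norm_num)⟩
  obtain ⟨k, hk⟩ : ∃ k : ℕ, 3 * m + 6 ≤ k := ⟨_, le_rfl⟩
  obtain ⟨F, H, hF, hH, hφH⟩ := iter p f hf h hh φ hφh k
  obtain ⟨ι, mm, hι1, hι2, hι3, hm1, hm2, hm3⟩ := Gm.data φ hφ hr k
  obtain ⟨κ, hκ⟩ := exists_kappa p hpg hfree htr hsurj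
  obtain ⟨L, hL⟩ := exists_desc (p := p) hs hp hsurj hc hpg htr
  -- the maps to the module
  obtain ⟨ν, hνdef⟩ : ∃ ν : E → R, ∀ a, ν a = ι (κ a) := ⟨_, fun _ => rfl⟩
  have hν : ∀ (g : Gm) (a : E), ν (g • a) = ι g + (ch g.i g.j : R) * ν a := by
    intro g a
    rw [hνdef, hνdef, hκ, hι1]; rfl
  obtain ⟨ν1, hν1def⟩ : ∃ ν1 : E → R, ∀ a, ν1 a = ν (H a) := ⟨_, fun _ => rfl⟩
  have hν1 : ∀ (g : Gm) (a : E), ν1 (g • a) =
      ι (φ^[k] g) + (ch (φ^[k] g).i (φ^[k] g).j : R) * ν1 a := by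
    intro g a
    rw [hν1def, hν1def, hφH, hν]
  obtain ⟨ν2, hν2def⟩ : ∃ ν2 : E → R, ∀ a, ν2 a = mm (κ a).n := ⟨_, fun _ => rfl⟩
  have hν2 : ∀ (g : Gm) (a : E), ν2 (g • a) =
      ι (φ^[k] g) + (ch (φ^[k] g).i (φ^[k] g).j : R) * ν2 a := by
    intro g a
    rw [hν2def, hν2def, hκ, Gm.mul_n, hm1, hm3, hι3]; rfl
  have hmsub : ∀ x y, w ^ k ∣ mm x - mm y := fun x y => dvd_sub (hm2 x) (hm2 y)
  have hν2d : ∀ x y : E, w ^ k ∣ ν2 x - ν2 y := by
    intro x y
    rw [hν2def, hν2def]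
    exact hmsub _ _
  -- the cochains
  have hzinv : ∀ (c : Vm m) (g : Gm) (l : List E),
      pb ν (zeta c) (l.map (fun u => g • u)) = pb ν (zeta c) l :=
    fun c g l => pbz_inv c ν (fun u => g • u) g.i g.j (ι g) (hν g) l
  have hwinv : ∀ (c : Vm m) (g : Gm) (l : List E),
      wp c ν2 ν1 (l.map (fun u => g • u)) = wp c ν2 ν1 l :=
    fun c g l => wp_inv c ν2 ν1 (fun u => g • u) _ _ _ (hν2 g) (hν1 g) l
  obtain ⟨zf, hzf⟩ : ∃ zf : Vm m → List M → ZMod 3, ∀ c, zf c = fun l => pb ν (zeta c) (L l) :=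
    ⟨_, fun _ => rfl⟩
  obtain ⟨wf, hwf⟩ : ∃ wf : Vm m → List M → ZMod 3, ∀ c, wf c = fun l => wp c ν2 ν1 (L l) :=
    ⟨_, fun _ => rfl⟩
  have hz1 : ∀ c, NlE p 4 (pb p (zf c) - pb ν (zeta c)) := by
    intro c
    rw [hzf]
    exact hL 4 (by norm_num) _ (hzinv c)
  have hw1 : ∀ c, NlE p 3 (pb p (wf c) - wp c ν2 ν1) := by
    intro c
    rw [hwf]
    exact hL 3 (by norm_num) _ (hwinv c)
  have hcoc : ∀ c, Coc univ 4 (zf c) := by
    intro c
    rw [Coc]
    refine nl_of_nlE hp hsurj (by norm_num) ?_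
    have e : pb p (d (zf c)) = d (pb p (zf c) - pb ν (zeta c)) + d (pb ν (zeta c)) := by
      rw [d_sub, d_pb]
      abel
    rw [e]
    refine (hz1 c).d.add (NlE.of_eq ?_)
    intro l hl
    rw [d_pb]
    exact d_zeta c _ (by simpa using hl)
  have hpF : ∀ X : List M → ZMod 3, pb p (pb F X) = pb H (pb p X) := by
    intro X
    funext l
    simp only [pb, List.map_map]
    congr 1
    refine List.map_congr_left ?_
    intro a _
    exact (hH a).symm
  have hHmap : ∀ ε > 0, ∃ δ > 0, ∀ a b, Cl p δ a b → Cl p ε (H a) (H b) :=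
    cl_map_unif F H H.continuous hH
  have hHinv : ∀ ε > 0, ∃ δ > 0, ∀ a b, Cl p δ a b → Cl p ε (H.symm a) (H.symm b) :=
    cl_of_map F hF H hH
  have hν1pb : ∀ (c : Vm m) (l : List E), pb ν1 (zeta c) l = pb H (pb ν (zeta c)) l := by
    intro c l
    simp only [pb, List.map_map]
    congr 1
    refine List.map_congr_left ?_
    intro a _
    exact hν1def a
  have hdw : ∀ c, Nl univ 4 (d (wf c) - pb F (zf c)) := by
    intro c
    refine nl_of_nlE hp hsurj (by norm_num) ?_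
    have e : pb p (d (wf c) - pb F (zf c)) =
        d (pb p (wf c) - wp c ν2 ν1) - pb H (pb p (zf c) - pb ν (zeta c)) +
        (d (wp c ν2 ν1) - pb H (pb ν (zeta c))) := by
      have e1 : pb p (d (wf c) - pb F (zf c)) = pb p (d (wf c)) - pb p (pb F (zf c)) := rfl
      have e2 : pb H (pb p (zf c) - pb ν (zeta c)) = pb H (pb p (zf c)) - pb H (pb ν (zeta c)) := rfl
      rw [e1, e2, hpF, d_sub, d_pb]
      abel
    rw [e]
    refine ((hw1 c).d.sub ((hz1 c).pb_of H hHmap)).add (NlE.of_eq ?_)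
    intro l hl
    rw [Pi.sub_apply, d_wp c hk ν2 ν1 hν2d l hl, hν1pb, sub_self]
  have hzs : ∀ c c', zf (c - c') = zf c - zf c' := by
    intro c c'
    rw [hzf, hzf, hzf]
    funext l
    exact zeta_csub c c' _
  have hws : ∀ c c', wf (c - c') = wf c - wf c' := by
    intro c c'
    rw [hwf, hwf, hwf]
    funext l
    exact wp_csub c c' _ _ _
  obtain ⟨c, hc0, U, v, hUv⟩ := pigeon m n3 n4 hm τ4 h4 τ3 h3 zf wf hzs hws hcoc F hdw
  apply hc0
  apply alt_zero
  -- transport to the cover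
  obtain ⟨a₀⟩ : Nonempty E := inferInstance
  have t1 : NlE p 3 (pb H (pb p U) - wp c ν2 ν1 - d (pb p v)) := by
    have e : pb H (pb p U) - wp c ν2 ν1 - d (pb p v) =
        pb p (pb F U - wf c - d v) + (pb p (wf c) - wp c ν2 ν1) := by
      have e1 : pb p (pb F U - wf c - d v) = pb p (pb F U) - pb p (wf c) - pb p (d v) := rfl
      rw [e1, hpF, d_pb]
      abel
    rw [e]
    exact (nlE_pb hUv).add (hw1 c)
  have t2 : NlE p 3 (pb p U - pb H.symm (wp c ν2 ν1) - d (pb H.symm (pb p v))) := by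
    have e : pb p U - pb H.symm (wp c ν2 ν1) - d (pb H.symm (pb p v)) =
        pb H.symm (pb H (pb p U) - wp c ν2 ν1 - d (pb p v)) := by
      have e1 : pb H.symm (pb H (pb p U) - wp c ν2 ν1 - d (pb p v)) =
        pb H.symm (pb H (pb p U)) - pb H.symm (wp c ν2 ν1) - pb H.symm (d (pb p v)) := rfl
      have e2 : pb H.symm (pb H (pb p U)) = pb p U := by
        funext l
        simp only [pb, List.map_map]
        congr 1
        refine List.map_congr_left ?_
        intro a _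
        simp
      rw [e1, e2, d_pb]
    rw [e]
    exact t1.pb_of _ hHinv
  -- the cone
  have t3 : ∀ l : List E, l.length = 3 + 1 →
      d (pb H.symm (wp c ν2 ν1) - wz c ν) l = 0 := by
    intro l hl
    rw [d_sub, Pi.sub_apply, d_wz c ν l (by omega), d_pb, pb, d_wp c hk ν2 ν1 hν2d _
      (by simpa using hl), hν1pb]
    have : pb H (pb ν (zeta c)) (l.map H.symm) = pb ν (zeta c) l := by
      simp only [pb, List.map_map]
      congr 1
      refine List.map_congr_left ?_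
      intro a _
      simp
    rw [this, sub_self]
  have t4 := cone (pb H.symm (wp c ν2 ν1) - wz c ν) a₀ 3 t3
  refine final p hc hpg c ν ?_ (pb p U)
    ((fun l' => (pb H.symm (wp c ν2 ν1) - wz c ν) (a₀ :: l')) + pb H.symm (pb p v)) ?_ ?_ a₀
  · intro g a
    rw [hν, hι2, Gm.nn_i, Gm.nn_j, ch_zero, Units.val_one, one_mul]
  · intro g l
    simp only [pb, List.map_map]
    congr 1
    refine List.map_congr_left ?_
    intro a _
    exact hpg g a
  · have e : pb p U - wz c ν - d ((fun l' => (pb H.symm (wp c ν2 ν1) - wz c ν) (a₀ :: l')) +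
        pb H.symm (pb p v)) = (pb p U - pb H.symm (wp c ν2 ν1) - d (pb H.symm (pb p v))) +
        ((pb H.symm (wp c ν2 ν1) - wz c ν) -
          d (fun l' => (pb H.symm (wp c ν2 ν1) - wz c ν) (a₀ :: l'))) := by
      rw [d_add]
      abel
    rw [e]
    refine t2.add (NlE.of_eq ?_)
    intro l hl
    rw [Pi.sub_apply, t4 l hl, sub_self]

end Core

/-- the topological statement -/
theorem no_cover (n : ℕ) (M : Type) [TopologicalSpace M] [ChartedSpace (EuclideanSpace ℝ (Fin n)) M]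
    [CompactSpace M] [ConnectedSpace M] [T2Space M] (f : C(M, M)) (hf : IsCoveringMap f) (x : M)
    (e : FundamentalGroup M (f x) ≃* Gm)
    (he : (FundamentalGroup.map f x).range.map e.toMonoidHom = Gm.th.ker) : False := by
  have : LocallyPathConnectedSpace M := ChartedSpace.locallyPathConnectedSpace
    (EuclideanSpace ℝ (Fin n)) M
  have : PathConnectedSpace M := pathConnectedSpace_iff_connectedSpace.2 inferInstance
  have : SecondCountableTopology M :=
    ChartedSpace.secondCountable_of_sigmaCompact (EuclideanSpace ℝ (Fin n)) M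
  have : TopologicalSpace.MetrizableSpace M := inferInstance
  let _ : MetricSpace M := TopologicalSpace.metrizableSpaceMetric M
  obtain ⟨E, tE, p, h, act, φ, hE1, hE2, hp, hsurj, hc, hpg, hfree, htr, hh, hφh, hφ, hr⟩ :=
    Pkg.package M (Mfd.slsc n M) f hf x
  let _ := act
  let act' : MulAction Gm E := MulAction.compHom E e.symm.toMonoidHom
  have hsm : ∀ (g : Gm) (u : E), g • u = e.symm g • u := fun g u => rfl
  let φ' : Gm →* Gm := (e.toMonoidHom.comp φ).comp e.symm.toMonoidHom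
  have hφ' : ∀ g, φ' g = e (φ (e.symm g)) := fun g => rfl
  refine core (E := E) (M := M) (Mfd.slsc n M) (Mfd.locAc n M) p hp hsurj
    (fun g => hc (e.symm g)) (fun g u => hpg (e.symm g) u) ?_ ?_ f hf.isLocalHomeomorph h hh φ'
    ?_ ?_ ?_
  · intro g u hgu
    have := hfree (e.symm g) u hgu
    exact (MulEquiv.map_eq_one_iff e.symm).1 this
  · intro u u' huu
    obtain ⟨g, hg⟩ := htr u u' huu
    exact ⟨e g, by rw [hsm, e.symm_apply_apply]; exact hg⟩
  · intro g u
    rw [hsm, hsm, hφh, hφ', e.symm_apply_apply]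
  · intro g g' hgg
    rw [hφ', hφ'] at hgg
    exact e.symm.injective (hφ (e.injective hgg))
  · intro g
    rw [← Gm.mem_ker, ← he, ← hr]
    constructor
    · rintro ⟨y, rfl⟩
      exact ⟨φ (e.symm y), ⟨_, rfl⟩, rfl⟩
    · rintro ⟨_, ⟨y, rfl⟩, rfl⟩
      exact ⟨e y, by rw [hφ', e.symm_apply_apply]; rfl⟩

end Pool.Agent.TH631.SC
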