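import Pool.Agent.TH631.SC.Mfd

/-! # Closeness in a cover of a compact metric space -/

set_option autoImplicit false

namespace Pool.Agent.TH631.SC

open Topology Set Metric
open scoped unitInterval
open Pool.Agent.TH631.SC.Cov

/-- `a` and `b` are joined by a path with small projection -/
def Cl {E M : Type} [TopologicalSpace E] [MetricSpace M] (p : C(E, M)) (ε : ℝ) (a b : E) : Prop :=
  ∃ γ : Path a b, ∀ s t, dist (p (γ s)) (p (γ t)) < ε

section
variable {E M : Type} [TopologicalSpace E] [MetricSpace M] {p : C(E, M)} {ε ε' : ℝ} {a b c : E}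

theorem Cl.refl (hε : 0 < ε) (a : E) : Cl p ε a a :=
  ⟨Path.refl a, fun s t => by simpa using hε⟩

theorem Cl.symm (h : Cl p ε a b) : Cl p ε b a := by
  obtain ⟨γ, h⟩ := h
  exact ⟨γ.symm, fun s t => h _ _⟩

theorem Cl.mono (h : Cl p ε a b) (he : ε ≤ ε') : Cl p ε' a b := by
  obtain ⟨γ, h⟩ := h
  exact ⟨γ, fun s t => (h s t).trans_le he⟩

theorem Cl.dist (h : Cl p ε a b) : dist (p a) (p b) < ε := by
  obtain ⟨γ, h⟩ := h
  simpa using h 0 1

theorem Cl.trans (h : Cl p ε a b) (h' : Cl p ε' b c) : Cl p (ε + ε') a c := by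
  obtain ⟨γ, h⟩ := h
  obtain ⟨γ', h'⟩ := h'
  have e0 : 0 < ε := dist_nonneg.trans_lt (h 0 0)
  have e1 : 0 < ε' := dist_nonneg.trans_lt (h' 0 0)
  have k1 : ∀ s, Dist.dist (p (γ s)) (p b) < ε := fun s => by simpa using h s 1
  have k2 : ∀ s, Dist.dist (p b) (p (γ' s)) < ε' := fun s => by simpa using h' 0 s
  have key : ∀ s, (∃ s', (γ.trans γ') s = γ s') ∨ (∃ s', (γ.trans γ') s = γ' s') := by
    intro s
    rw [Path.trans_apply]
    split_ifs
    · exact Or.inl ⟨_, rfl⟩
    · exact Or.inr ⟨_, rfl⟩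
  refine ⟨γ.trans γ', fun s t => ?_⟩
  rcases key s with ⟨s', hs⟩ | ⟨s', hs⟩ <;> rcases key t with ⟨t', ht⟩ | ⟨t', ht⟩ <;> rw [hs, ht]
  · exact (h s' t').trans (by linarith)
  · have := dist_triangle (p (γ s')) (p b) (p (γ' t'))
    linarith [k1 s', k2 t']
  · have := dist_triangle (p (γ' s')) (p b) (p (γ t'))
    rw [dist_comm (p (γ' s')) (p b), dist_comm (p b) (p (γ t'))] at this
    linarith [k1 t', k2 s']
  · exact (h' s' t').trans (by linarith)

theorem Cl.map {F : E → E} (hF : Continuous F) (h : Cl p ε a b)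
    (hp : ∀ u, p (F u) = p u) : Cl p ε (F a) (F b) := by
  obtain ⟨γ, h⟩ := h
  exact ⟨γ.map hF, fun s t => by
    simp only [Path.map_coe, Function.comp_apply, hp]
    exact h s t⟩

/-- closeness is preserved by a map covering a uniformly continuous map -/
theorem cl_map_unif [CompactSpace M] (f : C(M, M)) (F : E → E) (hF : Continuous F)
    (hp : ∀ u, p (F u) = f (p u)) :
    ∀ ε > 0, ∃ δ > 0, ∀ a b, Cl p δ a b → Cl p ε (F a) (F b) := by
  intro ε hε
  have huc := CompactSpace.uniformContinuous_of_continuous f.continuous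
  rw [Metric.uniformContinuous_iff] at huc
  obtain ⟨δ, hδ, hd⟩ := huc ε hε
  refine ⟨δ, hδ, ?_⟩
  rintro a b ⟨γ, h⟩
  exact ⟨γ.map hF, fun s t => by
    simp only [Path.map_coe, Function.comp_apply, hp]
    exact hd (h s t)⟩

/-- a locally injective map of a compact metric space does not shrink paths too much -/
theorem no_shrink [CompactSpace M] (f : C(M, M)) (hf : IsLocalHomeomorph f) :
    ∀ ε > 0, ∃ δ > 0, ∀ τ : I → M, Continuous τ → (∀ s t, Dist.dist (f (τ s)) (f (τ t)) < δ) →
      ∀ s t, Dist.dist (τ s) (τ t) < ε := by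
  -- uniform local injectivity
  have h1 : ∀ x : M, ∃ U : Set M, IsOpen U ∧ x ∈ U ∧ InjOn f U := by
    intro x
    obtain ⟨e, hx, he⟩ := hf x
    exact ⟨e.source, e.open_source, hx, by rw [he]; exact e.injOn⟩
  choose U hU hxU hinj using h1
  obtain ⟨r, hr, hrU⟩ := lebesgue_number_lemma_of_metric (isCompact_univ (X := M)) hU
    (fun x _ => mem_iUnion.2 ⟨x, hxU x⟩)
  intro ε hε
  set e := min ε r / 2 with he
  have he0 : 0 < e := by
    have : 0 < min ε r := lt_min hε hr
    positivity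
  have heε : e < ε := by
    have : 0 < min ε r := lt_min hε hr
    have := min_le_left ε r
    rw [he]; linarith
  have her : e < r := by
    have : 0 < min ε r := lt_min hε hr
    have := min_le_right ε r
    rw [he]; linarith
  have hKc : IsCompact {z : M × M | Dist.dist z.1 z.2 = e} := by
    apply IsClosed.isCompact
    exact isClosed_eq (by fun_prop) continuous_const
  obtain ⟨δ, hδ, hd⟩ : ∃ δ > 0, ∀ x y : M, Dist.dist x y = e → δ ≤ Dist.dist (f x) (f y) := by
    rcases {z : M × M | Dist.dist z.1 z.2 = e}.eq_empty_or_nonempty with h0 | hne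
    · refine ⟨1, one_pos, fun x y hxy => ?_⟩
      have : (x, y) ∈ {z : M × M | Dist.dist z.1 z.2 = e} := hxy
      rw [h0] at this
      exact absurd this (by simp)
    · obtain ⟨z, hz, hmin⟩ := hKc.exists_isMinOn hne
        (f := fun z : M × M => Dist.dist (f z.1) (f z.2)) (by fun_prop)
      refine ⟨Dist.dist (f z.1) (f z.2), ?_, fun x y hxy => hmin (a := (x, y)) hxy⟩
      refine dist_pos.2 ?_
      intro hf'
      obtain ⟨i, hi⟩ := hrU z.1 (mem_univ _)
      have h2 : z.1 = z.2 := hinj i (hi (mem_ball_self hr)) (hi (by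
        rw [mem_ball, dist_comm]
        have : Dist.dist z.1 z.2 = e := hz
        linarith)) hf'
      have : Dist.dist z.1 z.2 = e := hz
      rw [h2, dist_self] at this
      linarith
  refine ⟨δ, hδ, fun τ hτ h s t => ?_⟩
  by_contra hcon
  push Not at hcon
  have hc : Continuous (fun t' : I => Dist.dist (τ s) (τ t')) := by fun_prop
  obtain ⟨t', ht'⟩ : e ∈ range (fun t' : I => Dist.dist (τ s) (τ t')) := by
    refine mem_range_of_exists_le_of_exists_ge hc ⟨s, ?_⟩ ⟨t, ?_⟩
    · simpa using he0.le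
    · exact heε.le.trans hcon
  have := hd _ _ ht'
  linarith [h s t']

/-- inverse direction for covers of self-coverings -/
theorem cl_of_map [CompactSpace M] (f : C(M, M)) (hf : IsLocalHomeomorph f) (H : E ≃ₜ E)
    (hp : ∀ u, p (H u) = f (p u)) :
    ∀ ε > 0, ∃ δ > 0, ∀ a b, Cl p δ a b → Cl p ε (H.symm a) (H.symm b) := by
  intro ε hε
  obtain ⟨δ, hδ, hd⟩ := no_shrink f hf ε hε
  refine ⟨δ, hδ, ?_⟩
  rintro a b ⟨γ, h⟩
  refine ⟨γ.map H.symm.continuous, ?_⟩
  have := hd (fun s => p (H.symm (γ s))) (by fun_prop) (fun s t => by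
    rw [← hp, ← hp, H.apply_symm_apply, H.apply_symm_apply]
    exact h s t)
  intro s t
  simpa using this s t

/-- uniform local path connectedness -/
theorem unif_lpc [CompactSpace M] [LocallyPathConnectedSpace M] :
    ∀ ε > 0, ∃ δ > 0, ∀ x y : M, Dist.dist x y < δ → ∃ γ : Path x y,
      ∀ s t, Dist.dist (γ s) (γ t) < ε := by
  intro ε hε
  let U : M → Set M := fun x => pathComponentIn (ball x (ε / 2)) x
  have hU : ∀ x, IsOpen (U x) := fun x => isOpen_ball.pathComponentIn x
  obtain ⟨δ, hδ, hd⟩ := lebesgue_number_lemma_of_metric (isCompact_univ (X := M)) hU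
    (fun x _ => mem_iUnion.2 ⟨x, mem_pathComponentIn_self (mem_ball_self (by positivity))⟩)
  refine ⟨δ, hδ, fun x y hxy => ?_⟩
  obtain ⟨i, hi⟩ := hd x (mem_univ _)
  have hpc : IsPathConnected (U i) := isPathConnected_pathComponentIn
    (mem_ball_self (by positivity))
  have hj := hpc.joinedIn x (hi (mem_ball_self hδ)) y (hi (by rwa [mem_ball, dist_comm]))
  refine ⟨hj.somePath, fun s t => ?_⟩
  have h1 := pathComponentIn_subset (hj.somePath_mem s)
  have h2 := pathComponentIn_subset (hj.somePath_mem t)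
  rw [mem_ball] at h1 h2
  have := dist_triangle_right (hj.somePath s) (hj.somePath t) i
  linarith

/-- lifting close points -/
theorem cl_lift [CompactSpace M] [LocallyPathConnectedSpace M] (hp : IsCoveringMap p) :
    ∀ ε > 0, ∃ δ > 0, ∀ (a : E) (y : M), Dist.dist (p a) y < δ → ∃ b, p b = y ∧ Cl p ε a b := by
  intro ε hε
  obtain ⟨δ, hδ, hd⟩ := unif_lpc (M := M) ε hε
  refine ⟨δ, hδ, fun a y hy => ?_⟩
  obtain ⟨γ, hγ⟩ := hd _ _ hy
  have h0 : (γ : C(I, M)) 0 = p a := γ.source
  have hl := hp.liftPath_lifts (γ : C(I, M)) a h0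
  refine ⟨hp.liftPath (γ : C(I, M)) a h0 1, ?_, ⟨hp.liftPath (γ : C(I, M)) a h0,
    hp.liftPath_zero _ _ _, rfl⟩, ?_⟩
  · have := congrFun hl 1
    rw [Function.comp_apply] at this
    rw [this]
    exact γ.target
  · intro s t
    have h1 := congrFun hl s
    have h2 := congrFun hl t
    rw [Function.comp_apply] at h1 h2
    show Dist.dist (p (hp.liftPath (γ : C(I, M)) a h0 s)) (p (hp.liftPath (γ : C(I, M)) a h0 t)) < ε
    rw [h1, h2]
    exact hγ s t

/-- uniqueness of close lifts -/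
theorem cl_unique [CompactSpace M] [PathConnectedSpace M] (hs : SLSC M) (hp : IsCoveringMap p) :
    ∃ ε > 0, ∀ a b b' : E, Cl p ε a b → Cl p ε a b' → p b = p b' → b = b' := by
  choose V hV hl using hs
  obtain ⟨ε, hε, he⟩ := lebesgue_number_lemma_of_metric (isCompact_univ (X := M))
    (c := fun x => interior (V x)) (fun x => isOpen_interior)
    (fun x _ => mem_iUnion.2 ⟨x, mem_interior_iff_mem_nhds.2 (hV x)⟩)
  refine ⟨ε, hε, ?_⟩
  rintro a b b' ⟨γ, hγ⟩ ⟨γ', hγ'⟩ hbb
  obtain ⟨i, hi⟩ := he (p a) (mem_univ _)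
  have hi' : ball (p a) ε ⊆ V i := hi.trans interior_subset
  have e := Ex.triv_eq (X := M) (V := V i) (hl i) (γ.map p.continuous)
    ((γ'.map p.continuous).cast rfl hbb) (fun t => hi' (by
      rw [mem_ball]
      simpa using hγ t 0)) (fun t => hi' (by
      rw [mem_ball]
      simpa using hγ' t 0))
  have m1 : hp.monodromy (Path.Homotopic.Quotient.mk (γ.map p.continuous)) ⟨a, rfl⟩ =
      ⟨b, rfl⟩ := hp.monodromy_map (Path.Homotopic.Quotient.mk γ)
  have m2 : hp.monodromy (Path.Homotopic.Quotient.mk ((γ'.map p.continuous).cast rfl hbb))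
      ⟨a, rfl⟩ = (⟨b', hbb.symm⟩ : p ⁻¹' {p b}) :=
    hp.monodromy_eq_of_map_eq (ex := ⟨a, rfl⟩) (ey := ⟨b', hbb.symm⟩)
      (Path.Homotopic.Quotient.mk γ') rfl
  rw [e, m2] at m1
  exact (congrArg Subtype.val m1).symm

/-- H0: a function which is constant on close pairs is constant -/
theorem h_zero [PathConnectedSpace E] {A : Type} (f : E → A)
    (hf : ∃ ε > 0, ∀ a b, Cl p ε a b → f a = f b) (a b : E) : f a = f b := by
  obtain ⟨ε, hε, hf⟩ := hf
  let γ : Path a b := PathConnectedSpace.somePath a b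
  have hloc : IsLocallyConstant (fun t : I => f (γ t)) := by
    rw [IsLocallyConstant.iff_eventually_eq]
    intro t₀
    have hc : Continuous (fun t : I => p (γ t)) := by fun_prop
    have hN : (fun t : I => p (γ t)) ⁻¹' ball (p (γ t₀)) (ε / 2) ∈ 𝓝 t₀ :=
      hc.continuousAt (ball_mem_nhds _ (by positivity))
    have hI : ∀ᶠ t in 𝓝 t₀, uIcc t₀ t ⊆ (fun t : I => p (γ t)) ⁻¹' ball (p (γ t₀)) (ε / 2) := by
      have h1 := Filter.Tendsto.uIcc (l := 𝓝 t₀) (f := fun _ : I => t₀) (g := fun t => t)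
        (lb := 𝓝 t₀) tendsto_const_nhds Filter.tendsto_id
      exact (Filter.tendsto_smallSets_iff.1 h1) _ hN
    filter_upwards [hI] with t ht
    refine (hf _ _ ⟨γ.subpath t₀ t, fun s s' => ?_⟩).symm
    have hmem : ∀ s, p ((γ.subpath t₀ t) s) ∈ ball (p (γ t₀)) (ε / 2) := by
      intro s
      have h3 : (γ.subpath t₀ t) s ∈ range (γ.subpath t₀ t) := ⟨s, rfl⟩
      rw [Path.range_subpath] at h3
      obtain ⟨s', hs', h4⟩ := h3
      rw [← h4]
      exact ht hs'
    have h1 := hmem s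
    have h2 := hmem s'
    rw [mem_ball] at h1 h2
    have := dist_triangle_right (p ((γ.subpath t₀ t) s)) (p ((γ.subpath t₀ t) s')) (p (γ t₀))
    linarith
  have := hloc.apply_eq_of_preconnectedSpace 0 1
  simpa using this

end

end Pool.Agent.TH631.SC
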