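import Pool.Agent.TH631.SC.Tri

/-! # The group `R ⋊ ℤ²` and its self-embeddings of index three -/

set_option autoImplicit false

namespace Pool.Agent.TH631.SC

open Rg

/-- the group -/
@[ext] structure Gm : Type where
  n : R
  i : ℤ
  j : ℤ

namespace Gm

/-- the character -/
noncomputable def chi (g : Gm) : R := (ch g.i g.j : R)

noncomputable instance : Mul Gm := ⟨fun a b => ⟨a.n + (ch a.i a.j : R) * b.n, a.i + b.i, a.j + b.j⟩⟩
noncomputable instance : One Gm := ⟨⟨0, 0, 0⟩⟩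
noncomputable instance : Inv Gm := ⟨fun a => ⟨-((ch (-a.i) (-a.j) : R) * a.n), -a.i, -a.j⟩⟩

theorem mul_n (a b : Gm) : (a * b).n = a.n + a.chi * b.n := rfl
theorem mul_i (a b : Gm) : (a * b).i = a.i + b.i := rfl
theorem mul_j (a b : Gm) : (a * b).j = a.j + b.j := rfl
theorem one_n : (1 : Gm).n = 0 := rfl
theorem one_i : (1 : Gm).i = 0 := rfl
theorem one_j : (1 : Gm).j = 0 := rfl
theorem inv_n' (a : Gm) : (a⁻¹).n = -((ch (-a.i) (-a.j) : R) * a.n) := rfl
theorem inv_i (a : Gm) : (a⁻¹).i = -a.i := rfl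
theorem inv_j (a : Gm) : (a⁻¹).j = -a.j := rfl

theorem chi_one : (1 : Gm).chi = 1 := by
  rw [chi, one_i, one_j, ch_zero, Units.val_one]

theorem chi_mul (a b : Gm) : (a * b).chi = a.chi * b.chi := by
  rw [chi, mul_i, mul_j, ch_add, Units.val_mul]; rfl

theorem ch_neg_mul (i j : ℤ) : (ch (-i) (-j) : R) * (ch i j : R) = 1 := by
  rw [← Units.val_mul, ← ch_add, neg_add_cancel, neg_add_cancel, ch_zero, Units.val_one]

noncomputable instance : Group Gm := Group.ofLeftAxioms
  (by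
    intro a b c
    ext
    · simp only [mul_n, chi_mul]
      ring
    · simp only [mul_i]; ring
    · simp only [mul_j]; ring)
  (by
    intro a
    ext
    · simp only [mul_n, one_n, chi_one]
      ring
    · simp only [mul_i, one_i]; ring
    · simp only [mul_j, one_j]; ring)
  (by
    intro a
    ext
    · simp only [mul_n, one_n, inv_n', chi, inv_i, inv_j]
      ring
    · simp only [mul_i, inv_i, one_i]; ring
    · simp only [mul_j, inv_j, one_j]; ring)

/-- the elements of the normal subgroup -/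
noncomputable def nn (x : R) : Gm := ⟨x, 0, 0⟩

/-- the section of the quotient -/
noncomputable def sg (i j : ℤ) : Gm := ⟨0, i, j⟩

theorem nn_n (x : R) : (nn x).n = x := rfl
theorem nn_i (x : R) : (nn x).i = 0 := rfl
theorem nn_j (x : R) : (nn x).j = 0 := rfl
theorem sg_n (i j : ℤ) : (sg i j).n = 0 := rfl
theorem sg_i (i j : ℤ) : (sg i j).i = i := rfl
theorem sg_j (i j : ℤ) : (sg i j).j = j := rfl

theorem chi_nn (x : R) : (nn x).chi = 1 := by
  rw [chi, nn_i, nn_j, ch_zero, Units.val_one]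

theorem nn_add (x y : R) : nn (x + y) = nn x * nn y := by
  ext
  · rw [mul_n, chi_nn, one_mul]; rfl
  · rfl
  · rfl

theorem nn_zero : nn 0 = 1 := rfl

theorem nn_neg (x : R) : nn (-x) = (nn x)⁻¹ := by
  rw [eq_inv_iff_mul_eq_one, ← nn_add, neg_add_cancel, nn_zero]

theorem nn_inj {x y : R} (h : nn x = nn y) : x = y := congrArg Gm.n h

theorem nn_comm (x y : R) : nn x * nn y = nn y * nn x := by
  rw [← nn_add, add_comm, nn_add]

theorem sg_mul (i j i' j' : ℤ) : sg i j * sg i' j' = sg (i + i') (j + j') := by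
  ext
  · rw [mul_n, sg_n, sg_n, mul_zero, add_zero]; rfl
  · rfl
  · rfl

theorem sg_zero : sg 0 0 = 1 := rfl

theorem decomp (g : Gm) : g = nn g.n * sg g.i g.j := by
  ext
  · rw [mul_n, sg_n, mul_zero, add_zero]; rfl
  · rw [mul_i, nn_i, sg_i, zero_add]
  · rw [mul_j, nn_j, sg_j, zero_add]

theorem mul_nn (g : Gm) (x : R) : g * nn x = nn (g.chi * x) * g := by
  ext
  · rw [mul_n, mul_n, nn_n, nn_n, chi_nn]; ring
  · rw [mul_i, mul_i, nn_i, nn_i, add_comm]
  · rw [mul_j, mul_j, nn_j, nn_j, add_comm]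

theorem conj_nn (g : Gm) (x : R) : nn (g.chi * x) = g * nn x * g⁻¹ := by
  rw [mul_nn, mul_inv_cancel_right]

theorem eq_nn {g : Gm} (hi : g.i = 0) (hj : g.j = 0) : g = nn g.n := by
  ext
  · rfl
  · exact hi
  · exact hj

theorem cube_i (g : Gm) : (g ^ 3).i = 3 * g.i := by
  rw [pow_succ, pow_succ, pow_one, mul_i, mul_i]; ring

theorem cube_j (g : Gm) : (g ^ 3).j = 3 * g.j := by
  rw [pow_succ, pow_succ, pow_one, mul_j, mul_j]; ring

theorem nn_cube (x : R) : nn x ^ 3 = 1 := by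
  rw [pow_succ, pow_succ, pow_one, ← nn_add, ← nn_add]
  have : x + x + x = 3 * x := by ring
  rw [this, three_R, zero_mul, nn_zero]

/-- the normal subgroup is the set of elements of exponent three -/
theorem mem_iff (g : Gm) : (g.i = 0 ∧ g.j = 0) ↔ g ^ 3 = 1 := by
  constructor
  · rintro ⟨hi, hj⟩
    rw [eq_nn hi hj, nn_cube]
  · intro h
    have h1 := cube_i g
    have h2 := cube_j g
    rw [h, one_i] at h1
    rw [h, one_j] at h2
    omega

/-- the homomorphism to `ℤ/3` -/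
noncomputable def th : Gm →* Multiplicative (ZMod 3) where
  toFun g := Multiplicative.ofAdd (ev g.n)
  map_one' := by rw [one_n, map_zero]; rfl
  map_mul' g h := by
    rw [mul_n, map_add, map_mul, chi, ev_ch, one_mul]; rfl

theorem mem_ker (g : Gm) : g ∈ th.ker ↔ ev g.n = 0 := by
  rw [MonoidHom.mem_ker]
  exact Iff.rfl

theorem index_ker : th.ker.index = 3 := by
  rw [Subgroup.index_ker]
  have : th.range = ⊤ := by
    rw [MonoidHom.range_eq_top]
    intro z
    refine ⟨nn ((z.toAdd.val : ℕ) : R), ?_⟩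
    have : th (nn ((z.toAdd.val : ℕ) : R)) = Multiplicative.ofAdd (ev ((z.toAdd.val : ℕ) : R)) := rfl
    rw [this, map_natCast, ZMod.natCast_zmod_val]
    rfl
  rw [this, Nat.card_congr (Subgroup.topEquiv (G := Multiplicative (ZMod 3))).toEquiv]
  exact (Nat.card_congr Multiplicative.toAdd).trans (Nat.card_zmod 3)

/-- multiplication by `w` as an isomorphism onto the subgroup -/
noncomputable def mw : Gm →* th.ker where
  toFun g := ⟨⟨w * g.n, g.i, g.j⟩, by
    rw [mem_ker, map_mul, ev_w, zero_mul]⟩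
  map_one' := by
    apply Subtype.ext
    ext
    · exact mul_zero _
    · rfl
    · rfl
  map_mul' g h := by
    apply Subtype.ext
    ext
    · change w * (g.n + (ch g.i g.j : R) * h.n) = w * g.n + (ch g.i g.j : R) * (w * h.n)
      ring
    · rfl
    · rfl

theorem mw_bij : Function.Bijective mw := by
  constructor
  · intro g h e
    have e' := congrArg Subtype.val e
    have e1 : w * g.n = w * h.n := congrArg Gm.n e'
    have e2 := congrArg (fun z : Gm => z.i) e'
    have e3 := congrArg (fun z : Gm => z.j) e'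
    ext
    · exact mul_left_cancel₀ w_ne e1
    · exact e2
    · exact e3
  · rintro ⟨g, hg⟩
    rw [mem_ker, ev_eq_zero_iff] at hg
    obtain ⟨y, hy⟩ := hg
    refine ⟨⟨y, g.i, g.j⟩, ?_⟩
    apply Subtype.ext
    ext
    · exact hy.symm
    · rfl
    · rfl

theorem iso_ker : Nonempty (Gm ≃* th.ker) := ⟨MulEquiv.ofBijective mw mw_bij⟩

/-! ### self-embeddings -/

section Emb

variable (φ : Gm →* Gm) (hφ : Function.Injective φ) (hr : ∀ g : Gm, g ∈ φ.range ↔ ev g.n = 0)

include hφ in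
theorem emb_mem (g : Gm) : (g.i = 0 ∧ g.j = 0) ↔ ((φ g).i = 0 ∧ (φ g).j = 0) := by
  rw [mem_iff, mem_iff, ← map_pow]
  constructor
  · intro h; rw [h, map_one]
  · intro h; exact hφ (by rw [h, map_one])

include hφ in
theorem emb_nn (x : R) : φ (nn x) = nn (φ (nn x)).n :=
  eq_nn ((emb_mem φ hφ (nn x)).1 ⟨rfl, rfl⟩).1 ((emb_mem φ hφ (nn x)).1 ⟨rfl, rfl⟩).2

include hφ hr in
theorem emb_w (j : ℕ) : ∀ x : R, w ^ j ∣ x → w ^ (j + 1) ∣ (φ (nn x)).n := by
  induction j with
  | zero =>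
    intro x _
    rw [zero_add, pow_one, ← ev_eq_zero_iff, ← hr]
    exact ⟨nn x, rfl⟩
  | succ j ih =>
    rintro x ⟨y, rfl⟩
    have e : w ^ (j + 1) * y = (sg 1 0).chi * (w ^ j * y) - w ^ j * y := by
      have : (sg 1 0).chi = u := by
        rw [chi, sg_i, sg_j, ch]
        simp [uU_val]
      rw [this, w]
      ring
    have e2 : φ (nn (w ^ (j + 1) * y)) = nn ((φ (sg 1 0)).chi * (φ (nn (w ^ j * y))).n
        - (φ (nn (w ^ j * y))).n) := by
      rw [e, sub_eq_add_neg, nn_add, nn_neg, conj_nn, map_mul, map_mul, map_mul, map_inv, map_inv,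
        sub_eq_add_neg, nn_add, nn_neg, conj_nn, ← emb_nn φ hφ]
    rw [e2, nn_n]
    have e3 : (φ (sg 1 0)).chi * (φ (nn (w ^ j * y))).n - (φ (nn (w ^ j * y))).n =
        ((φ (sg 1 0)).chi - 1) * (φ (nn (w ^ j * y))).n := by ring
    rw [e3, pow_succ' w (j + 1)]
    exact mul_dvd_mul (w_dvd_ch _ _) (ih _ (Dvd.intro _ rfl))

/-- iterates -/
theorem it_mul (k : ℕ) (g h : Gm) : φ^[k] (g * h) = φ^[k] g * φ^[k] h := by
  induction k with
  | zero => rfl
  | succ k ih => rw [Function.iterate_succ_apply', Function.iterate_succ_apply',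
      Function.iterate_succ_apply', ih, map_mul]

theorem it_one (k : ℕ) : φ^[k] 1 = 1 := by
  induction k with
  | zero => rfl
  | succ k ih => rw [Function.iterate_succ_apply', ih, map_one]

theorem it_inv (k : ℕ) (g : Gm) : φ^[k] g⁻¹ = (φ^[k] g)⁻¹ := by
  rw [eq_inv_iff_mul_eq_one, ← it_mul, inv_mul_cancel, it_one]

include hφ in
theorem it_mem (k : ℕ) (g : Gm) : (g.i = 0 ∧ g.j = 0) ↔ ((φ^[k] g).i = 0 ∧ (φ^[k] g).j = 0) := by
  induction k with
  | zero => rfl
  | succ k ih =>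
    rw [Function.iterate_succ_apply', ih]
    exact emb_mem φ hφ _

include hφ in
theorem it_nn (k : ℕ) (x : R) : φ^[k] (nn x) = nn (φ^[k] (nn x)).n :=
  eq_nn ((it_mem φ hφ k (nn x)).1 ⟨rfl, rfl⟩).1 ((it_mem φ hφ k (nn x)).1 ⟨rfl, rfl⟩).2

include hφ hr in
theorem it_w (k : ℕ) (x : R) : w ^ k ∣ (φ^[k] (nn x)).n := by
  induction k with
  | zero => rw [pow_zero]; exact one_dvd _
  | succ k ih =>
    rw [Function.iterate_succ_apply', it_nn φ hφ k x]
    exact emb_w φ hφ hr k _ ih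

include hr in
theorem gen1 (g : Gm) : ∃ (x : R) (h : Gm), g = nn x * φ h := by
  have : sg g.i g.j ∈ φ.range := by
    rw [hr, sg_n, map_zero]
  obtain ⟨h, hh⟩ := this
  exact ⟨g.n, h, by rw [hh]; exact decomp g⟩

include hφ hr in
theorem genk (k : ℕ) (g : Gm) : ∃ (x : R) (i j : ℤ), g = nn x * φ^[k] (sg i j) := by
  have key : ∀ k : ℕ, ∀ g : Gm, ∃ (x : R) (h : Gm), g = nn x * φ^[k] h := by
    intro k
    induction k with
    | zero => intro g; exact ⟨0, g, by rw [nn_zero, one_mul]; rfl⟩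
    | succ k ih =>
      intro g
      obtain ⟨x, h, e⟩ := gen1 φ hr g
      obtain ⟨y, h', e'⟩ := ih h
      refine ⟨x + (φ (nn y)).n, h', ?_⟩
      rw [nn_add, ← emb_nn φ hφ, Function.iterate_succ_apply', mul_assoc, ← map_mul, ← e', e]
  obtain ⟨x, h, e⟩ := key k g
  refine ⟨x + (φ^[k] (nn h.n)).n, h.i, h.j, ?_⟩
  rw [nn_add, ← it_nn φ hφ, mul_assoc, ← it_mul, ← decomp, e]

include hφ in
theorem uniq (k : ℕ) {x x' : R} {i j i' j' : ℤ}
    (h : nn x * φ^[k] (sg i j) = nn x' * φ^[k] (sg i' j')) : x = x' ∧ i = i' ∧ j = j' := by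
  have h1 : φ^[k] (sg (i - i') (j - j')) = nn (x' - x) := by
    have e1 : sg i j = sg (i - i') (j - j') * sg i' j' := by
      rw [sg_mul]; congr 1 <;> ring
    rw [e1, it_mul, ← mul_assoc] at h
    have h2 := mul_right_cancel h
    have h3 : φ^[k] (sg (i - i') (j - j')) = (nn x)⁻¹ * nn x' := by
      rw [← h2, inv_mul_cancel_left]
    rw [h3, ← nn_neg, ← nn_add]
    congr 1
    ring
  have h2 := (it_mem φ hφ k (sg (i - i') (j - j'))).2 (by rw [h1]; exact ⟨rfl, rfl⟩)
  have hi : i = i' := by have := h2.1; rw [sg_i] at this; omega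
  have hj : j = j' := by have := h2.2; rw [sg_j] at this; omega
  subst hi
  subst hj
  exact ⟨nn_inj (mul_right_cancel h), rfl, rfl⟩

include hφ hr in
/-- the crossed homomorphism attached to an iterate -/
theorem data (k : ℕ) : ∃ (ι : Gm → R) (m : R → R),
    (∀ g h, ι (g * h) = ι g + g.chi * ι h) ∧
    (∀ x, ι (nn x) = x) ∧
    (∀ g : Gm, ι (φ^[k] g) = m g.n) ∧
    (∀ x y, m (x + y) = m x + m y) ∧
    (∀ x, w ^ k ∣ m x) ∧
    (∀ (g : Gm) (x : R), m (g.chi * x) = (φ^[k] g).chi * m x) := by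
  choose ι I J hι using genk φ hφ hr k
  refine ⟨ι, fun x => (φ^[k] (nn x)).n, ?_, ?_, ?_, ?_, ?_, ?_⟩
  · intro g h
    have e1 : g * h = nn (ι g + g.chi * ι h) * φ^[k] (sg (I g + I h) (J g + J h)) := by
      rw [nn_add, ← sg_mul, it_mul]
      have e2 : φ^[k] (sg (I g) (J g)) * nn (ι h) = nn (g.chi * ι h) * φ^[k] (sg (I g) (J g)) := by
        have : (φ^[k] (sg (I g) (J g))).chi = g.chi := by
          conv_rhs => rw [hι g, chi_mul, chi_nn, one_mul]
        rw [mul_nn, this]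
      calc g * h = (nn (ι g) * φ^[k] (sg (I g) (J g))) * (nn (ι h) * φ^[k] (sg (I h) (J h))) := by
            rw [← hι g, ← hι h]
        _ = nn (ι g) * (φ^[k] (sg (I g) (J g)) * nn (ι h)) * φ^[k] (sg (I h) (J h)) := by group
        _ = _ := by rw [e2]; group
    exact (uniq φ hφ k ((hι (g * h)).symm.trans e1)).1
  · intro x
    have e1 : nn x = nn x * φ^[k] (sg 0 0) := by rw [sg_zero, it_one, mul_one]
    exact (uniq φ hφ k ((hι (nn x)).symm.trans e1)).1
  · intro g
    have e1 : φ^[k] g = nn (φ^[k] (nn g.n)).n * φ^[k] (sg g.i g.j) := by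
      rw [← it_nn φ hφ, ← it_mul, ← decomp]
    exact (uniq φ hφ k ((hι (φ^[k] g)).symm.trans e1)).1
  · intro x y
    apply nn_inj
    rw [nn_add, ← it_nn φ hφ, ← it_nn φ hφ, ← it_nn φ hφ, nn_add, it_mul]
  · intro x
    exact it_w φ hφ hr k x
  · intro g x
    apply nn_inj
    rw [← it_nn φ hφ, conj_nn, conj_nn, it_mul, it_mul, it_inv, ← it_nn φ hφ]

end Emb

end Gm

end Pool.Agent.TH631.SC
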