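import Pool.Agent.TH631.SC.Lift
import Pool.Agent.TH631.SC.Grp

/-! # The cochains attached to the trilinear forms -/

set_option autoImplicit false

namespace Pool.Agent.TH631.SC

open Topology Set Metric
open Pool.Agent.Helper554.Smith
open Rg

/-! ### generalities on prisms -/

section
variable {A B C : Type*}

theorem pr_map (f g : B → C) (k : A → B) (c : List C → ZMod 3) (l : List A) :
    pr f g c (l.map k) = pr (fun x => f (k x)) (fun x => g (k x)) c l := by
  induction l generalizing c with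
  | nil => rfl
  | cons x l ih =>
    rw [List.map_cons, pr_cons, pr_cons, ih, List.map_map]
    rfl

theorem pr_pb (f g : A → B) (k : B → C) (c : List C → ZMod 3) (l : List A) :
    pr (fun x => k (f x)) (fun x => k (g x)) c l = pr f g (fun l' => c (l'.map k)) l := by
  induction l generalizing c with
  | nil => rfl
  | cons x l ih =>
    rw [pr_cons, pr_cons, ih, List.map_cons, List.map_cons, List.map_map]
    rfl

theorem pr_zero (f g : A → B) (c : List B → ZMod 3) (l : List A)
    (h : ∀ l' : List B, l'.length = l.length + 1 → c l' = 0) : pr f g c l = 0 := by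
  induction l generalizing c with
  | nil => rfl
  | cons x l ih =>
    rw [pr_cons, h _ (by simp), ih (fun l' => c (f x :: l')) (fun l' hl' => h _ (by simp [hl'])),
      sub_zero]

theorem d_three (c : List A → ZMod 3) (x y z : A) :
    d c [x, y, z] = c [y, z] - c [x, z] + c [x, y] := by
  simp only [d_cons, d_nil]
  ring

theorem d_four (c : List A → ZMod 3) (x y z t : A) :
    d c [x, y, z, t] = c [y, z, t] - c [x, z, t] + c [x, y, t] - c [x, y, z] := by
  simp only [d_cons, d_nil]
  ring

theorem d_five (c : List A → ZMod 3) (x y z t s : A) :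
    d c [x, y, z, t, s] = c [y, z, t, s] - c [x, z, t, s] + c [x, y, t, s] - c [x, y, z, s]
      + c [x, y, z, t] := by
  simp only [d_cons, d_nil]
  ring

end

/-! ### the cochains -/

/-- the basic cochain -/
noncomputable def zeta {m : ℕ} (c : Vm m) : List R → ZMod 3
  | [x, y, z, t] => bt c (y - x) (z - y) (t - z)
  | _ => 0

theorem zeta_four {m : ℕ} (c : Vm m) (x y z t : R) :
    zeta c [x, y, z, t] = bt c (y - x) (z - y) (t - z) := rfl

theorem zeta_csub {m : ℕ} (c c' : Vm m) (l : List R) : zeta (c - c') l = zeta c l - zeta c' l := by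
  match l with
  | [] => simp [zeta]
  | [_] => simp [zeta]
  | [_, _] => simp [zeta]
  | [_, _, _] => simp [zeta]
  | [x, y, z, t] => simp only [zeta_four, bt_csub]
  | _ :: _ :: _ :: _ :: _ :: _ => simp [zeta]

theorem zeta_aff {m : ℕ} (c : Vm m) (i j : ℤ) (t : R) (l : List R) :
    zeta c (l.map (fun x => t + (ch i j : R) * x)) = zeta c l := by
  match l with
  | [] => simp [zeta]
  | [_] => simp [zeta]
  | [_, _] => simp [zeta]
  | [_, _, _] => simp [zeta]
  | [x, y, z, s] =>
    simp only [List.map_cons, List.map_nil, zeta_four]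
    have e : ∀ a b : R, t + (ch i j : R) * a - (t + (ch i j : R) * b) = (ch i j : R) * (a - b) := by
      intro a b; ring
    rw [e, e, e, bt_ch]
  | _ :: _ :: _ :: _ :: _ :: _ => simp [zeta]

theorem d_zeta {m : ℕ} (c : Vm m) (l : List R) (hl : l.length = 5) : d (zeta c) l = 0 := by
  match l, hl with
  | [x, y, z, t, s], _ =>
    rw [d_five]
    simp only [zeta_four, bt_sub1, bt_sub2, bt_sub3]
    ring

/-- the primitive of the pullback of the basic cochain -/
noncomputable def wz {m : ℕ} {E : Type} (c : Vm m) (ν : E → R) : List E → ZMod 3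
  | [x, y, z] => bt c (ν x) (ν y - ν x) (ν z - ν y)
  | _ => 0

theorem wz_three {m : ℕ} {E : Type} (c : Vm m) (ν : E → R) (x y z : E) :
    wz c ν [x, y, z] = bt c (ν x) (ν y - ν x) (ν z - ν y) := rfl

theorem d_wz {m : ℕ} {E : Type} (c : Vm m) (ν : E → R) (l : List E) (hl : l.length = 4) :
    d (wz c ν) l = pb ν (zeta c) l := by
  match l, hl with
  | [x, y, z, t], _ =>
    rw [d_four]
    simp only [pb, List.map_cons, List.map_nil, zeta_four, wz_three, bt_sub1, bt_sub2, bt_sub3]
    ring

/-- the prism cochain -/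
noncomputable def wp {m : ℕ} {E : Type} (c : Vm m) (ν2 ν1 : E → R) : List E → ZMod 3 :=
  pr ν2 ν1 (zeta c)

theorem wp_csub {m : ℕ} {E : Type} (c c' : Vm m) (ν2 ν1 : E → R) (l : List E) :
    wp (c - c') ν2 ν1 l = wp c ν2 ν1 l - wp c' ν2 ν1 l := by
  have : zeta (c - c') = zeta c - zeta c' := funext fun l => zeta_csub c c' l
  rw [wp, this, pr_sub]
  rfl

theorem d_wp {m k : ℕ} {E : Type} (c : Vm m) (hk : 3 * m + 6 ≤ k) (ν2 ν1 : E → R)
    (h2 : ∀ x y : E, w ^ k ∣ ν2 x - ν2 y) (l : List E)
    (hl : l.length = 4) : d (wp c ν2 ν1) l = pb ν1 (zeta c) l := by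
  have h := congrFun (prism ν2 ν1 (zeta c)) l
  rw [Pi.add_apply, Pi.sub_apply, pr_zero ν2 ν1 (d (zeta c)) l (fun l' hl' =>
    d_zeta c l' (by omega)), add_zero] at h
  have h3 : pb ν2 (zeta c) l = 0 := by
    match l, hl with
    | [x, y, z, t], _ =>
      simp only [pb, List.map_cons, List.map_nil, zeta_four]
      exact bt_van c hk _ _ _ (h2 _ _)
  rw [wp, h, h3, sub_zero]

theorem wp_inv {m : ℕ} {E : Type} (c : Vm m) (ν2 ν1 : E → R) (G : E → E) (i j : ℤ) (t : R)
    (h2 : ∀ a, ν2 (G a) = t + (ch i j : R) * ν2 a) (h1 : ∀ a, ν1 (G a) = t + (ch i j : R) * ν1 a)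
    (l : List E) : wp c ν2 ν1 (l.map G) = wp c ν2 ν1 l := by
  unfold wp
  rw [pr_map]
  obtain ⟨A, hA⟩ : ∃ A : R → R, A = fun y => t + (ch i j : R) * y := ⟨_, rfl⟩
  have e2 : (fun x => ν2 (G x)) = (fun x => A (ν2 x)) := by rw [hA]; exact funext h2
  have e1 : (fun x => ν1 (G x)) = (fun x => A (ν1 x)) := by rw [hA]; exact funext h1
  have e3 : (fun l' : List R => zeta c (l'.map A)) = zeta c := by
    rw [hA]; exact funext fun l' => zeta_aff c i j t l'
  rw [e1, e2, pr_pb ν2 ν1 A, e3]

theorem pbz_inv {m : ℕ} {E : Type} (c : Vm m) (ν : E → R) (G : E → E) (i j : ℤ) (t : R)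
    (h : ∀ a, ν (G a) = t + (ch i j : R) * ν a)
    (l : List E) : pb ν (zeta c) (l.map G) = pb ν (zeta c) l := by
  unfold pb
  rw [List.map_map]
  have e : ν ∘ G = (fun y => t + (ch i j : R) * y) ∘ ν := funext h
  rw [e, ← List.map_map, zeta_aff]

/-- cone formula -/
theorem cone {E : Type} (X : List E → ZMod 3) (a0 : E) (q : ℕ)
    (h : ∀ l : List E, l.length = q + 1 → d X l = 0) (l : List E) (hl : l.length = q) :
    X l = d (fun l' => X (a0 :: l')) l := by
  have := h (a0 :: l) (by simp [hl])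
  rw [d_cons, sub_eq_zero] at this
  exact this

/-! ### the final computation -/

section Final
variable {E M : Type} [TopologicalSpace E] [MetricSpace M] [LocallyPathConnectedSpace E]
  [SimplyConnectedSpace E] [MulAction Gm E]

theorem final (p : C(E, M)) (hc : ∀ g : Gm, Continuous (fun u : E => g • u))
    (hpg : ∀ (g : Gm) (u : E), p (g • u) = p u) {m : ℕ} (c : Vm m) (ν : E → R)
    (hν : ∀ (g : R) (a : E), ν (Gm.nn g • a) = g + ν a)
    (U v : List E → ZMod 3) (hU : ∀ (g : Gm) (l : List E), U (l.map (fun a => g • a)) = U l)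
    (hN : NlE p 3 (U - wz c ν - d v)) (a₀ : E) : ∀ x y z : R, alt c x y z = 0 := by
  obtain ⟨ε, hε, hN⟩ := hN
  -- the cocycles
  let V : R → E → E → ZMod 3 := fun g a b =>
    bt c g (ν a) (ν b - ν a) + v [Gm.nn g • a, Gm.nn g • b] - v [a, b]
  have hcl : ∀ (g : R) {a b : E}, Cl p ε a b → Cl p ε (Gm.nn g • a) (Gm.nn g • b) :=
    fun g a b h => h.map (hc (Gm.nn g)) (hpg (Gm.nn g))
  have hN3 : ∀ a b e : E, Cl p ε a b → Cl p ε b e → Cl p ε a e →
      U [a, b, e] - bt c (ν a) (ν b - ν a) (ν e - ν b) - (v [b, e] - v [a, e] + v [a, b]) = 0 := by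
    intro a b e h1 h2 h3
    have := hN [a, b, e] rfl (by
      intro x hx y hy
      simp only [List.mem_cons, List.not_mem_nil, or_false] at hx hy
      rcases hx with rfl | rfl | rfl <;> rcases hy with rfl | rfl | rfl
      · exact Cl.refl hε _
      · exact h1
      · exact h3
      · exact h1.symm
      · exact Cl.refl hε _
      · exact h2
      · exact h3.symm
      · exact h2.symm
      · exact Cl.refl hε _)
    rwa [Pi.sub_apply, Pi.sub_apply, d_three, wz_three] at this
  have hV : ∀ g, HOne.Coc1 p ε (V g) := by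
    intro g a b e h1 h2 h3
    have k1 := hN3 a b e h1 h2 h3
    have k2 := hN3 _ _ _ (hcl g h1) (hcl g h2) (hcl g h3)
    have k3 : U [Gm.nn g • a, Gm.nn g • b, Gm.nn g • e] = U [a, b, e] := hU (Gm.nn g) [a, b, e]
    rw [k3, hν, hν, hν] at k2
    simp only [V]
    simp only [bt_add1, bt_add2, bt_add3, bt_sub2, bt_sub3] at k1 k2 ⊢
    linear_combination k2 - k1
  choose B hB using fun g => HOne.exists_primitive hε (hV g)
  have hBB : ∀ (g h f : R) (a : E), bt c g h f - bt c h g f =
      (B g (Gm.nn h • Gm.nn f • a) - B g (Gm.nn f • a) - B g (Gm.nn h • a) + B g a) -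
      (B h (Gm.nn g • Gm.nn f • a) - B h (Gm.nn f • a) - B h (Gm.nn g • a) + B h a) := by
    intro g h f a
    have hconst := h_zero (p := p) (fun a : E => bt c g h (ν a) - bt c h g (ν a)
      - (B g (Gm.nn h • a) - B g a) + (B h (Gm.nn g • a) - B h a)) ⟨ε, hε, ?_⟩ a (Gm.nn f • a)
    · simp only [hν, bt_add3] at hconst
      linear_combination -hconst
    · intro a b hab
      have e1 := hB g a b hab
      have e2 := hB h a b hab
      have e3 := hB g _ _ (hcl h hab)
      have e4 := hB h _ _ (hcl g hab)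
      simp only [V, hν] at e1 e2 e3 e4
      have hcomm : ∀ x : E, Gm.nn g • Gm.nn h • x = Gm.nn h • Gm.nn g • x := by
        intro x
        rw [smul_smul, smul_smul, Gm.nn_comm]
      rw [hcomm, hcomm] at e3
      simp only [bt_add2, bt_add3, bt_sub3] at e1 e2 e3 e4 ⊢
      linear_combination e4 - e2 - e3 + e1
  intro x y z
  have hcomm : ∀ (g h : R) (x : E), Gm.nn g • Gm.nn h • x = Gm.nn h • Gm.nn g • x := by
    intro g h x
    rw [smul_smul, smul_smul, Gm.nn_comm]
  have e1 := hBB x y z a₀
  have e2 := hBB y z x a₀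
  have e3 := hBB z x y a₀
  unfold alt
  rw [e1, e2, e3, hcomm z x, hcomm z y, hcomm y x]
  ring

end Final

end Pool.Agent.TH631.SC
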