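import Pool.Agent.Helper554.Smith.MV
import Pool.Agent.Helper554.Smith.Homot

/-! # Finiteness of Alexander-Spanier cohomology of locally contractible compact metric spaces -/

set_option autoImplicit false

namespace Pool.Agent.TH631.SC

open Set Topology
open Pool.Agent.Helper554.Smith

/-- `S` cuts `Z` into finitely many pieces up to differences. -/
def FT {V : Type*} [AddCommGroup V] (Z S : Set V) : Prop :=
  ∃ (n : ℕ) (τ : V → Fin n), ∀ z ∈ Z, ∀ z' ∈ Z, τ z = τ z' → z - z' ∈ S

theorem FT.of_finite {V : Type*} [AddCommGroup V] {Z S : Set V} (T : Type*) [Finite T]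
    (τ : V → T) (h : ∀ z ∈ Z, ∀ z' ∈ Z, τ z = τ z' → z - z' ∈ S) : FT Z S := by
  obtain ⟨n, ⟨e⟩⟩ := Finite.exists_equiv_fin T
  exact ⟨n, fun v => e (τ v), fun z hz z' hz' h' => h z hz z' hz' (e.injective h')⟩

theorem FT.mono {V : Type*} [AddCommGroup V] {Z Z' S S' : Set V} (h : FT Z S) (hZ : Z' ⊆ Z)
    (hS : S ⊆ S') : FT Z' S' := by
  obtain ⟨n, τ, h⟩ := h
  exact ⟨n, τ, fun z hz z' hz' e => hS (h z (hZ hz) z' (hZ hz') e)⟩

section
variable {Ω : Type*} [MetricSpace Ω] [CompactSpace Ω]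

/-- finiteness of the restriction in length `q` -/
def PQ (Ω : Type*) [MetricSpace Ω] (q : ℕ) : Prop :=
  ∀ K K' : Set Ω, IsClosed K → IsClosed K' → K ⊆ interior K' →
    FT {c : List Ω → ZMod 3 | Coc K' q c} {c | Cob K q c}

omit [CompactSpace Ω] in
theorem pq_zero : PQ Ω 0 := by
  intro K K' _ _ _
  refine FT.of_finite (ZMod 3) (fun c => c []) ?_
  intro z _ z' _ h
  refine Nl.cob ?_
  rw [nl_zero_iff]
  simp [h]

/-- gluing step -/
theorem ft_union (q : ℕ) (hq : PQ Ω q) {K' A A' B B' : Set Ω} (hA : IsClosed A) (hA' : IsClosed A')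
    (hB : IsClosed B) (hB' : IsClosed B') (hAA : A ⊆ interior A') (hBB : B ⊆ interior B')
    (hAK : A' ⊆ K') (hBK : B' ⊆ K')
    (h1 : FT {c : List Ω → ZMod 3 | Coc K' (q + 1) c} {c | Cob A' (q + 1) c})
    (h2 : FT {c : List Ω → ZMod 3 | Coc K' (q + 1) c} {c | Cob B' (q + 1) c}) :
    FT {c : List Ω → ZMod 3 | Coc K' (q + 1) c} {c | Cob (A ∪ B) (q + 1) c} := by
  classical
  obtain ⟨n1, τ1, h1⟩ := h1
  obtain ⟨n2, τ2, h2⟩ := h2
  obtain ⟨n3, τ3, h3⟩ := hq (A ∩ B) (A' ∩ B') (hA.inter hB) (hA'.inter hB')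
    (by rw [interior_inter]; exact inter_subset_inter hAA hBB)
  -- representatives of the classes of `(τ1, τ2)`
  let P : (Fin n1 × Fin n2) → (List Ω → ZMod 3) → Prop := fun t c =>
    Coc K' (q + 1) c ∧ (τ1 c, τ2 c) = t
  let rep : (Fin n1 × Fin n2) → (List Ω → ZMod 3) := fun t =>
    if h : ∃ c, P t c then h.choose else 0
  have hrep : ∀ c, Coc K' (q + 1) c → P (τ1 c, τ2 c) (rep (τ1 c, τ2 c)) := by
    intro c hc
    have h : ∃ c', P (τ1 c, τ2 c) c' := ⟨c, hc, rfl⟩
    simp only [rep, dif_pos h]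
    exact h.choose_spec
  have key : ∀ c, Coc K' (q + 1) c → ∃ a b : List Ω → ZMod 3,
      Nl A' (q + 1) (c - rep (τ1 c, τ2 c) - d a) ∧ Nl B' (q + 1) (c - rep (τ1 c, τ2 c) - d b) := by
    intro c hc
    obtain ⟨hr, he⟩ := hrep c hc
    have e1 : τ1 (rep (τ1 c, τ2 c)) = τ1 c := congrArg Prod.fst he
    have e2 : τ2 (rep (τ1 c, τ2 c)) = τ2 c := congrArg Prod.snd he
    obtain ⟨a, ha⟩ := h1 c hc _ hr e1.symm
    obtain ⟨b, hb⟩ := h2 c hc _ hr e2.symm
    exact ⟨a, b, ha, hb⟩
  let ga : (List Ω → ZMod 3) → (List Ω → ZMod 3) := fun c =>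
    if h : Coc K' (q + 1) c then (key c h).choose else 0
  let gb : (List Ω → ZMod 3) → (List Ω → ZMod 3) := fun c =>
    if h : Coc K' (q + 1) c then (key c h).choose_spec.choose else 0
  have hga : ∀ c, Coc K' (q + 1) c → Nl A' (q + 1) (c - rep (τ1 c, τ2 c) - d (ga c)) ∧
      Nl B' (q + 1) (c - rep (τ1 c, τ2 c) - d (gb c)) := by
    intro c hc
    simp only [ga, gb, dif_pos hc]
    exact (key c hc).choose_spec.choose_spec
  refine FT.of_finite ((Fin n1 × Fin n2) × Fin n3) (fun c => ((τ1 c, τ2 c), τ3 (ga c - gb c))) ?_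
  intro z hz z' hz' he
  obtain ⟨e1, e3⟩ := Prod.mk.inj he
  have hz0 : Coc K' (q + 1) z := hz
  have hz0' : Coc K' (q + 1) z' := hz'
  obtain ⟨a1, b1⟩ := hga z hz
  obtain ⟨a2, b2⟩ := hga z' hz'
  rw [← e1] at a2 b2
  -- `ga - gb` is a cocycle on the intersection
  have coc : ∀ c, Coc K' (q + 1) c → Coc (A' ∩ B') q (ga c - gb c) := by
    intro c hc
    obtain ⟨a, b⟩ := hga c hc
    have h := (b.mono (inter_subset_right : A' ∩ B' ⊆ B')).sub (a.mono inter_subset_left)
    have h' : c - rep (τ1 c, τ2 c) - d (gb c) - (c - rep (τ1 c, τ2 c) - d (ga c)) =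
        d (ga c - gb c) := by
      rw [d_sub]; abel
    rw [h'] at h
    exact h
  have hc := h3 _ (coc z hz) _ (coc z' hz') e3
  have hsub : A ∪ B ⊆ K' := union_subset ((hAA.trans interior_subset).trans hAK)
    ((hBB.trans interior_subset).trans hBK)
  refine MV.mv_glue A B hA hB q (z - z') (ga z - ga z') (gb z - gb z')
    ((hz0.sub hz0').mono hsub) ?_ ?_ ?_
  · have h := (a1.sub a2).mono (hAA.trans interior_subset)
    have e : z - rep (τ1 z, τ2 z) - d (ga z) - (z' - rep (τ1 z, τ2 z) - d (ga z')) =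
        z - z' - d (ga z - ga z') := by
      rw [d_sub]; abel
    rwa [e] at h
  · have h := (b1.sub b2).mono (hBB.trans interior_subset)
    have e : z - rep (τ1 z, τ2 z) - d (gb z) - (z' - rep (τ1 z, τ2 z) - d (gb z')) =
        z - z' - d (gb z - gb z') := by
      rw [d_sub]; abel
    rwa [e] at h
  · have e : ga z - ga z' - (gb z - gb z') = ga z - gb z - (ga z' - gb z') := by abel
    rw [e]
    exact hc

/-- small closed acyclic neighbourhoods -/
def LocAc (Ω : Type*) [MetricSpace Ω] : Prop :=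
  ∀ (x : Ω) (U : Set Ω), U ∈ 𝓝 x → ∃ V : Set Ω, IsClosed V ∧ V ∈ 𝓝 x ∧ V ⊆ U ∧ ∀ q, HV V q

theorem pq_succ (hl : LocAc Ω) (q : ℕ) (hq : PQ Ω q) : PQ Ω (q + 1) := by
  intro K K' hK hK' hKK
  have hcomp : IsCompact K := hK.isCompact
  let p : Set Ω → Prop := fun s => ∃ K'' : Set Ω, IsClosed K'' ∧ closure s ⊆ interior K'' ∧
    K'' ⊆ K' ∧ FT {c : List Ω → ZMod 3 | Coc K' (q + 1) c} {c | Cob K'' (q + 1) c}
  have hp : p K := by
    refine hcomp.induction_on (p := p) ?_ ?_ ?_ ?_
    · refine ⟨∅, isClosed_empty, by simp, empty_subset _, ?_⟩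
      refine FT.of_finite Unit (fun _ => ()) ?_
      intro z _ z' _ _
      refine Nl.cob ⟨1, one_pos, fun l hl hs => ?_⟩
      cases l with
      | nil => simp at hl
      | cons x l => exact absurd (hs.1 x (by simp)) (by simp)
    · rintro s t hst ⟨K'', h1, h2, h3, h4⟩
      exact ⟨K'', h1, (closure_mono hst).trans h2, h3, h4⟩
    · rintro s t ⟨A', hA', hsA, hAK, hA⟩ ⟨B', hB', htB, hBK, hB⟩
      obtain ⟨O1, hO1, hs1, hc1⟩ := normal_exists_closure_subset isClosed_closure isOpen_interior hsA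
      obtain ⟨O2, hO2, hs2, hc2⟩ := normal_exists_closure_subset isClosed_closure isOpen_interior htB
      refine ⟨closure O1 ∪ closure O2, isClosed_closure.union isClosed_closure, ?_, ?_,
        ft_union q hq isClosed_closure hA' isClosed_closure hB' hc1 hc2 hAK hBK hA hB⟩
      · rw [closure_union]
        refine union_subset (hs1.trans ?_) (hs2.trans ?_)
        · exact interior_maximal (subset_closure.trans subset_union_left) hO1
        · exact interior_maximal (subset_closure.trans subset_union_right) hO2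
      · exact union_subset ((hc1.trans interior_subset).trans hAK)
          ((hc2.trans interior_subset).trans hBK)
    · intro x hx
      obtain ⟨V, hVc, hVx, hVK, hac⟩ := hl x (interior K') (isOpen_interior.mem_nhds (hKK hx))
      obtain ⟨O, hO, hxO, hOV⟩ := normal_exists_closure_subset (isClosed_singleton (x := x))
        isOpen_interior (by simpa using mem_interior_iff_mem_nhds.2 hVx)
      refine ⟨O, mem_nhdsWithin_of_mem_nhds (hO.mem_nhds (hxO rfl)), V, hVc, ?_,
        hVK.trans interior_subset, ?_⟩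
      · simpa using hOV
      · refine FT.of_finite Unit (fun _ => ()) ?_
        intro z hz z' hz' _
        have hz1 : Coc K' (q + 1) z := hz
        have hz2 : Coc K' (q + 1) z' := hz'
        exact hac (q + 1) _ ((hz1.sub hz2).mono (hVK.trans interior_subset))
  obtain ⟨K'', _, h2, _, h4⟩ := hp
  exact h4.mono Subset.rfl (fun c hc => Cob.mono hc (subset_closure.trans (h2.trans interior_subset)))

/-- TARGET: finiteness of Alexander-Spanier cohomology. -/
theorem pq_all (hl : LocAc Ω) (q : ℕ) : PQ Ω q := by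
  induction q with
  | zero => exact pq_zero
  | succ q ih => exact pq_succ hl q ih

theorem ft_univ (hl : LocAc Ω) (q : ℕ) :
    FT {c : List Ω → ZMod 3 | Coc univ q c} {c | Cob univ q c} :=
  pq_all hl q univ univ isClosed_univ isClosed_univ (by simp)

end

end Pool.Agent.TH631.SC
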