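import Pool.Agent.TH631.SC.Close

/-! # Small one-cocycles on a simply connected cover are coboundaries -/

set_option autoImplicit false

namespace Pool.Agent.TH631.SC.HOne

open Topology Set Metric
open scoped unitInterval

section
variable {E M : Type} [TopologicalSpace E] [MetricSpace M] (p : C(E, M))

/-- one-cocycle condition at scale `ε` -/
def Coc1 (ε : ℝ) (v : E → E → ZMod 3) : Prop :=
  ∀ a b c, Cl p ε a b → Cl p ε b c → Cl p ε a c → v a c = v a b + v b c

variable {p} {ε : ℝ} {v : E → E → ZMod 3}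

theorem Coc1.self (hε : 0 < ε) (hv : Coc1 p ε v) (a : E) : v a a = 0 := by
  have := hv a a a (Cl.refl hε a) (Cl.refl hε a) (Cl.refl hε a)
  have h2 : v a a + 0 = v a a + v a a := by rw [add_zero]; exact this
  exact (add_left_cancel h2).symm

/-- the chart domains -/
def V (p : C(E, M)) (ε : ℝ) (i : E) : Set E := pathComponentIn (p ⁻¹' ball (p i) (ε / 4)) i

theorem V_mem (hε : 0 < ε) (i : E) : i ∈ V p ε i :=
  mem_pathComponentIn_self (by
    show p i ∈ ball (p i) (ε / 4)
    exact mem_ball_self (by positivity))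

theorem V_open [LocallyPathConnectedSpace E] (i : E) : IsOpen (V p ε i) :=
  (isOpen_ball.preimage p.continuous).pathComponentIn i

/-- points joined inside a chart domain are close -/
theorem V_cl (hε : 0 < ε) {i x y : E} (γ : Path x y) (h : ∀ t, γ t ∈ V p ε i) : Cl p ε x y := by
  refine ⟨γ, fun s t => ?_⟩
  have hsub : V p ε i ⊆ p ⁻¹' ball (p i) (ε / 4) := pathComponentIn_subset
  have h1 : p (γ s) ∈ ball (p i) (ε / 4) := hsub (h s)
  have h2 : p (γ t) ∈ ball (p i) (ε / 4) := hsub (h t)
  rw [mem_ball] at h1 h2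
  have := dist_triangle_right (p (γ s)) (p (γ t)) (p i)
  linarith

theorem V_cl' (hε : 0 < ε) {i x : E} (hx : x ∈ V p ε i) : Cl p ε i x := by
  have hpc : IsPathConnected (V p ε i) := isPathConnected_pathComponentIn (by
    show p i ∈ ball (p i) (ε / 4)
    exact mem_ball_self (by positivity))
  have hj := hpc.joinedIn i (V_mem hε i) x hx
  exact V_cl hε hj.somePath hj.somePath_mem

/-- the bundle core -/
noncomputable def Z [LocallyPathConnectedSpace E] (hε : 0 < ε) (hv : Coc1 p ε v) :
    FiberBundleCore E E (ZMod 3) where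
  baseSet := V p ε
  isOpen_baseSet := V_open
  indexAt := id
  mem_baseSet_at := V_mem hε
  coordChange i j x w := w + v i x - v j x
  coordChange_self i x _ w := by ring
  continuousOn_coordChange i j := by
    rw [continuousOn_prod_of_discrete_right]
    intro w
    have hset : {a : E | (a, w) ∈ (V p ε i ∩ V p ε j) ×ˢ (univ : Set (ZMod 3))} =
        V p ε i ∩ V p ε j := by
      ext a
      simp
    rw [hset]
    have hopen : IsOpen (V p ε i ∩ V p ε j) := (V_open i).inter (V_open j)
    rw [hopen.continuousOn_iff]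
    intro x hx
    have hW : pathComponentIn (V p ε i ∩ V p ε j) x ∈ 𝓝 x :=
      (hopen.pathComponentIn x).mem_nhds (mem_pathComponentIn_self hx)
    apply ContinuousAt.congr (f := fun _ => w + v i x - v j x) continuousAt_const
    filter_upwards [hW] with y hy
    have hw := fun t => JoinedIn.somePath_mem hy t
    have h0 : Cl p ε x y := V_cl hε (JoinedIn.somePath hy) (fun t => (hw t).1)
    have hy' : y ∈ V p ε i ∩ V p ε j := pathComponentIn_subset hy
    have h1 := hv i x y (V_cl' hε hx.1) h0 (V_cl' hε hy'.1)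
    have h2 := hv j x y (V_cl' hε hx.2) h0 (V_cl' hε hy'.2)
    show w + v i x - v j x = w + v i y - v j y
    rw [h1, h2]
    ring
  coordChange_comp i j k x _ w := by ring

/-- local statement -/
theorem exists_local [LocallyPathConnectedSpace E] [SimplyConnectedSpace E] (hε : 0 < ε)
    (hv : Coc1 p ε v) : ∃ B : E → ZMod 3, ∀ x₀, ∀ᶠ x in 𝓝 x₀, v x₀ x = B x - B x₀ := by
  have hcov : IsCoveringMap (Z hε hv).proj :=
    FiberBundle.isCoveringMap (F := ZMod 3) (E := (Z hε hv).Fiber)
  obtain ⟨e₀⟩ : Nonempty E := inferInstance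
  obtain ⟨s, ⟨_, hs⟩, -⟩ := hcov.existsUnique_continuousMap_lifts (ContinuousMap.id E) e₀
    (⟨e₀, (0 : ZMod 3)⟩ : (Z hε hv).TotalSpace) rfl
  have hs' : ∀ x, (s x).proj = x := fun x => congrFun hs x
  let B : E → ZMod 3 := fun x => (s x).2
  refine ⟨B, fun x₀ => ?_⟩
  have hc : ContinuousAt s x₀ := s.continuous.continuousAt
  rw [FiberBundle.continuousAt_totalSpace (F := ZMod 3) (E := (Z hε hv).Fiber)] at hc
  have hc2 := hc.2
  have hval : ∀ x, ((trivializationAt (ZMod 3) (Z hε hv).Fiber (s x₀).proj) (s x)).2 =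
      B x + v x x - v x₀ x := by
    intro x
    show B x + v (s x).proj (s x).proj - v (s x₀).proj (s x).proj = _
    rw [hs' x, hs' x₀]
  have h2 : ∀ᶠ x in 𝓝 x₀, B x + v x x - v x₀ x = B x₀ + v x₀ x₀ - v x₀ x₀ := by
    have h3 : ContinuousAt (fun x => B x + v x x - v x₀ x) x₀ := by
      have := hc2
      simp only [hval] at this
      exact this
    have h4 := h3.eventually_mem (s := {B x₀ + v x₀ x₀ - v x₀ x₀})
      ((isOpen_discrete _).mem_nhds rfl)
    filter_upwards [h4] with x hx
    exact hx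
  filter_upwards [h2] with x hx
  rw [Coc1.self hε hv, Coc1.self hε hv] at hx
  linear_combination -hx

/-- TARGET -/
theorem exists_primitive [LocallyPathConnectedSpace E] [SimplyConnectedSpace E] (hε : 0 < ε)
    (hv : Coc1 p ε v) : ∃ B : E → ZMod 3, ∀ a b, Cl p ε a b → v a b = B b - B a := by
  obtain ⟨B, hB⟩ := exists_local hε hv
  refine ⟨B, ?_⟩
  rintro a b ⟨γ, hγ⟩
  have hsub : ∀ s t : I, Cl p ε (γ s) (γ t) := by
    intro s t
    refine ⟨γ.subpath s t, fun u w => ?_⟩
    have h3 : (γ.subpath s t) u ∈ range (γ.subpath s t) := ⟨u, rfl⟩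
    have h4 : (γ.subpath s t) w ∈ range (γ.subpath s t) := ⟨w, rfl⟩
    rw [Path.range_subpath] at h3 h4
    obtain ⟨u', _, h5⟩ := h3
    obtain ⟨w', _, h6⟩ := h4
    rw [← h5, ← h6]
    exact hγ _ _
  have hloc : IsLocallyConstant (fun t : I => v (γ 0) (γ t) - B (γ t)) := by
    rw [IsLocallyConstant.iff_eventually_eq]
    intro t₀
    have h1 : ∀ᶠ t in 𝓝 t₀, v (γ t₀) (γ t) = B (γ t) - B (γ t₀) :=
      γ.continuous.continuousAt.eventually (hB (γ t₀))
    filter_upwards [h1] with t ht
    have h2 := hv (γ 0) (γ t₀) (γ t) (hsub _ _) (hsub _ _) (hsub _ _)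
    rw [h2, ht]
    ring
  have h := hloc.apply_eq_of_preconnectedSpace 0 1
  simp only [Path.source, Path.target] at h
  rw [Coc1.self hε hv] at h
  linear_combination -h

end

end Pool.Agent.TH631.SC.HOne
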