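import Pool.Agent.TH631.SC.HOne

/-! # Cochains on the cover and on the base -/

set_option autoImplicit false

namespace Pool.Agent.TH631.SC

open Topology Set Metric
open scoped unitInterval
open Pool.Agent.Helper554.Smith
open Pool.Agent.TH631.SC.Cov

section
variable {E M : Type} [TopologicalSpace E] [MetricSpace M]

/-- small lists in the cover -/
def SmE (p : C(E, M)) (ε : ℝ) (l : List E) : Prop := ∀ a ∈ l, ∀ b ∈ l, Cl p ε a b

/-- locally zero cochains on the cover -/
def NlE (p : C(E, M)) (q : ℕ) (c : List E → ZMod 3) : Prop :=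
  ∃ ε > 0, ∀ l : List E, l.length = q → SmE p ε l → c l = 0

variable {p : C(E, M)} {q : ℕ} {b c : List E → ZMod 3} {ε ε' : ℝ} {l l' : List E}

theorem SmE.mono (h : SmE p ε l) (he : ε ≤ ε') : SmE p ε' l :=
  fun a ha b hb => (h a ha b hb).mono he

theorem SmE.sub (h : SmE p ε l) (hl : l' ⊆ l) : SmE p ε l' :=
  fun a ha b hb => h a (hl ha) b (hl hb)

theorem SmE.map_p (h : SmE p ε l) : Sm univ ε (l.map p) := by
  refine ⟨fun _ _ => mem_univ _, ?_⟩
  intro x hx y hy
  obtain ⟨a, ha, rfl⟩ := List.mem_map.1 hx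
  obtain ⟨b, hb, rfl⟩ := List.mem_map.1 hy
  exact (h a ha b hb).dist

theorem NlE.add (hb : NlE p q b) (hc : NlE p q c) : NlE p q (b + c) := by
  obtain ⟨ε, hε, hb⟩ := hb
  obtain ⟨η, hη, hc⟩ := hc
  refine ⟨min ε η, lt_min hε hη, fun l hl hs => ?_⟩
  rw [Pi.add_apply, hb l hl (hs.mono (min_le_left _ _)), hc l hl (hs.mono (min_le_right _ _)),
    add_zero]

theorem NlE.neg (hc : NlE p q c) : NlE p q (-c) := by
  obtain ⟨η, hη, hc⟩ := hc
  exact ⟨η, hη, fun l hl hs => by rw [Pi.neg_apply, hc l hl hs, neg_zero]⟩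

theorem NlE.sub (hb : NlE p q b) (hc : NlE p q c) : NlE p q (b - c) := by
  rw [sub_eq_add_neg]; exact hb.add hc.neg

theorem NlE.of_eq (h : ∀ l : List E, l.length = q → c l = 0) : NlE p q c :=
  ⟨1, one_pos, fun l hl _ => h l hl⟩

theorem NlE.d (hc : NlE p q c) : NlE p (q + 1) (d c) := by
  obtain ⟨ε, hε, hc⟩ := hc
  exact ⟨ε, hε, fun l hl hs => d_eq_zero l fun l' hl' hsub => hc l' (by omega) (hs.sub hsub)⟩

theorem NlE.pb_of (hc : NlE p q c) (F : E → E)
    (hF : ∀ ε > 0, ∃ δ > 0, ∀ a b, Cl p δ a b → Cl p ε (F a) (F b)) : NlE p q (pb F c) := by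
  obtain ⟨ε, hε, hc⟩ := hc
  obtain ⟨δ, hδ, hd⟩ := hF ε hε
  refine ⟨δ, hδ, fun l hl hs => hc _ (by simpa using hl) ?_⟩
  intro a ha b hb
  obtain ⟨a', ha', rfl⟩ := List.mem_map.1 ha
  obtain ⟨b', hb', rfl⟩ := List.mem_map.1 hb
  exact hd _ _ (hs a' ha' b' hb')

theorem nlE_pb {c : List M → ZMod 3} (h : Nl univ q c) : NlE p q (pb p c) := by
  obtain ⟨ε, hε, h⟩ := h
  exact ⟨ε, hε, fun l hl hs => h _ (by simpa using hl) hs.map_p⟩

/-- small lists lift -/
theorem lift_list [CompactSpace M] [LocallyPathConnectedSpace M] (hp : IsCoveringMap p)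
    (hsurj : Function.Surjective p) :
    ∀ ε > 0, ∃ δ > 0, ∀ l : List M, l ≠ [] → Sm univ δ l → ∃ l' : List E, l'.map p = l ∧
      SmE p ε l' := by
  classical
  intro ε hε
  obtain ⟨δ, hδ, hd⟩ := cl_lift hp (ε / 2) (by positivity)
  refine ⟨δ, hδ, fun l hl hs => ?_⟩
  obtain ⟨x, l0, rfl⟩ := List.exists_cons_of_ne_nil hl
  obtain ⟨a, rfl⟩ := hsurj x
  have key : ∀ y ∈ p a :: l0, ∃ b, p b = y ∧ Cl p (ε / 2) a b := fun y hy =>
    hd a y (hs.2 (p a) (by simp) y hy)
  let g : M → E := fun y => if h : ∃ b, p b = y ∧ Cl p (ε / 2) a b then h.choose else a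
  have hg : ∀ y ∈ p a :: l0, p (g y) = y ∧ Cl p (ε / 2) a (g y) := by
    intro y hy
    have h := key y hy
    simp only [g, dif_pos h]
    exact h.choose_spec
  refine ⟨(p a :: l0).map g, ?_, ?_⟩
  · rw [List.map_map]
    conv_rhs => rw [← List.map_id (p a :: l0)]
    exact List.map_congr_left (fun y hy => (hg y hy).1)
  · intro u hu w hw
    obtain ⟨y, hy, rfl⟩ := List.mem_map.1 hu
    obtain ⟨z, hz, rfl⟩ := List.mem_map.1 hw
    have := ((hg y hy).2.symm).trans (hg z hz).2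
    rwa [add_halves] at this

theorem nl_of_nlE [CompactSpace M] [LocallyPathConnectedSpace M] (hp : IsCoveringMap p)
    (hsurj : Function.Surjective p) (hq : q ≠ 0) {c : List M → ZMod 3} (h : NlE p q (pb p c)) :
    Nl univ q c := by
  obtain ⟨ε, hε, h⟩ := h
  obtain ⟨δ, hδ, hd⟩ := lift_list hp hsurj ε hε
  refine ⟨δ, hδ, fun l hl hs => ?_⟩
  obtain ⟨l', hl', hs'⟩ := hd l (by rintro rfl; simp at hl; omega) hs
  have := h l' (by rw [← hl, ← hl', List.length_map]) hs'
  rwa [pb, hl'] at this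

/-- the canonical lift of a list -/
theorem exists_desc [CompactSpace M] [LocallyPathConnectedSpace M] [PathConnectedSpace M]
    (hs : SLSC M) (hp : IsCoveringMap p) (hsurj : Function.Surjective p)
    {G : Type} [Group G] [MulAction G E] (hc : ∀ g : G, Continuous (fun u : E => g • u))
    (hpg : ∀ (g : G) (u : E), p (g • u) = p u)
    (ht : ∀ u u' : E, p u = p u' → ∃ g : G, g • u = u') :
    ∃ L : List M → List E, ∀ q ≠ 0, ∀ W : List E → ZMod 3,
      (∀ (g : G) (l : List E), W (l.map (fun u => g • u)) = W l) →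
      NlE p q (pb p (fun l => W (L l)) - W) := by
  classical
  obtain ⟨ε₀, hε₀, hu⟩ := cl_unique (p := p) hs hp
  choose sc hsc using hsurj
  let tr : E → M → E := fun a y => if h : ∃ b, p b = y ∧ Cl p ε₀ a b then h.choose else a
  let L : List M → List E := fun l =>
    match l with
    | [] => []
    | x :: l' => (x :: l').map (tr (sc x))
  refine ⟨L, fun q hq W hW => ⟨ε₀, hε₀, fun l hl hsm => ?_⟩⟩
  cases l with
  | nil => simp at hl; omega
  | cons a l =>
    obtain ⟨g, hg⟩ := ht a (sc (p a)) (hsc (p a)).symm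
    have key : ∀ b ∈ a :: l, tr (sc (p a)) (p b) = g • b := by
      intro b hb
      have h1 : Cl p ε₀ (sc (p a)) (g • b) := by
        rw [← hg]
        exact (hsm a (by simp) b hb).map (hc g) (hpg g)
      have h2 : ∃ b', p b' = p b ∧ Cl p ε₀ (sc (p a)) b' := ⟨g • b, hpg g b, h1⟩
      simp only [tr, dif_pos h2]
      exact hu _ _ _ h2.choose_spec.2 h1 (by rw [h2.choose_spec.1, hpg])
    have h3 : L ((a :: l).map p) = (a :: l).map (fun u => g • u) := by
      show ((a :: l).map p).map (tr (sc (p a))) = _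
      rw [List.map_map]
      exact List.map_congr_left (fun b hb => key b hb)
    show W (L ((a :: l).map p)) - W (a :: l) = 0
    rw [h3, hW, sub_self]

end

end Pool.Agent.TH631.SC
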