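import Pool.Agent.TH631.SC.Cov

/-! # The universal cover of a self-covering space -/

set_option autoImplicit false

namespace Pool.Agent.TH631.SC.Pkg

open Topology Set
open Pool.Agent.TH631.SC.Cov

/-- naturality of the monodromy -/
theorem nat_mono {U E X : Type} [TopologicalSpace U] [TopologicalSpace E] [TopologicalSpace X]
    {p : C(U, X)} {q : C(E, X)} (hp : IsCoveringMap p) (hq : IsCoveringMap q) (π : C(U, E))
    (h : ∀ u, q (π u) = p u) {x y : X} (γ : Path.Homotopic.Quotient x y) (u : p ⁻¹' {x})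
    (v : q ⁻¹' {x}) (huv : π u.1 = v.1) :
    (hq.monodromy γ v).1 = π (hp.monodromy γ u).1 := by
  obtain ⟨v, hv⟩ := v
  simp only at huv
  subst huv
  obtain ⟨γ⟩ := γ
  have hu0 : (γ : C(unitInterval, X)) 0 = p u.1 := γ.source.trans u.2.symm
  have hv0 : (γ : C(unitInterval, X)) 0 = q (π u.1) := γ.source.trans hv.symm
  have h1 : π.comp (hp.liftPath γ u.1 hu0) = hq.liftPath γ (π u.1) hv0 := by
    rw [hq.eq_liftPath_iff' hv0]
    constructor
    · funext t
      simp only [Function.comp_apply, ContinuousMap.comp_apply, h]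
      exact congrFun (hp.liftPath_lifts γ u.1 hu0) t
    · simp only [ContinuousMap.comp_apply]
      rw [hp.liftPath_zero]
  exact (congrArg (fun F : C(unitInterval, E) => F 1) h1).symm

/-- if the lift of `b` at `e` is closed then `b` is in the image -/
theorem loop_lift {E X : Type} [TopologicalSpace E] [TopologicalSpace X]
    {q : C(E, X)} (hq : IsCoveringMap q) (e : E) (b : Path.Homotopic.Quotient (q e) (q e))
    (h : (hq.monodromy b ⟨e, rfl⟩).1 = e) : ∃ a : Path.Homotopic.Quotient e e, a.map q = b := by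
  obtain ⟨b⟩ := b
  have h0 : (b : C(unitInterval, X)) 0 = q e := b.source
  have h1 : hq.liftPath b e h0 1 = e := h
  refine ⟨Path.Homotopic.Quotient.mk ⟨hq.liftPath b e h0, hq.liftPath_zero _ _ _, h1⟩, ?_⟩
  refine congrArg Path.Homotopic.Quotient.mk ?_
  ext t
  exact congrFun (hq.liftPath_lifts b e h0) t

/-- covers of path connected spaces are onto -/
theorem cover_surj {X U : Type} [TopologicalSpace X] [TopologicalSpace U] [PathConnectedSpace X]
    [Nonempty U] (p : C(U, X)) (hcov : IsCoveringMap p) : Function.Surjective p := by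
  intro x
  obtain ⟨u⟩ := ‹Nonempty U›
  let γ : Path (p u) x := PathConnectedSpace.somePath _ _
  refine ⟨hcov.liftPath γ.toContinuousMap u (by simp) 1, ?_⟩
  have := congrFun (hcov.liftPath_lifts γ.toContinuousMap u (by simp)) 1
  rw [Function.comp_apply] at this
  rw [this]
  exact γ.target

/-- covers of locally path connected spaces are locally path connected -/
theorem lpc_cover {X U : Type} [TopologicalSpace X] [TopologicalSpace U]
    [LocallyPathConnectedSpace X] (p : C(U, X)) (hcov : IsCoveringMap p) :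
    LocallyPathConnectedSpace U := by
  classical
  have hl := hcov.isLocalHomeomorph
  let ch : U → OpenPartialHomeomorph U X := fun u => (hl u).choose
  have hch : ∀ u, u ∈ (ch u).source := fun u => (hl u).choose_spec.1
  let cs : ChartedSpace X U :=
    { atlas := Set.range ch
      chartAt := ch
      mem_chart_source := hch
      chart_mem_atlas := fun u => ⟨u, rfl⟩ }
  exact ChartedSpace.locallyPathConnectedSpace X U

/-- the deck group of the universal cover -/
theorem deck {X U : Type} [TopologicalSpace X] [TopologicalSpace U]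
    [SimplyConnectedSpace U] [LocallyPathConnectedSpace U] (p : C(U, X)) (hp : IsCoveringMap p)
    (x₀ : X) (u₀ : U) (hu₀ : p u₀ = x₀) :
    ∃ T : FundamentalGroup X x₀ → C(U, U), T 1 = ContinuousMap.id U ∧
      (∀ g h, T (g * h) = (T g).comp (T h)) ∧ (∀ g u, p (T g u) = p u) ∧
      (∀ g u, T g u = u → g = 1) ∧ (∀ u u', p u = p u' → ∃ g, T g u = u') ∧
      ∀ g : FundamentalGroup X x₀, T g u₀ =
        (hp.monodromy (x := x₀) (y := x₀) (g⁻¹ : FundamentalGroup X x₀) ⟨u₀, hu₀⟩).1 := by
  subst hu₀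
  -- lifts of `p` to covers
  have lift : ∀ (E : Type) [TopologicalSpace E] (q : C(E, X)), IsCoveringMap q → ∀ (u : U) (e : E),
      q e = p u → ∃! F : C(U, E), F u = e ∧ q ∘ F = p :=
    fun E _ q hq u e h => hq.existsUnique_continuousMap_lifts p u e h
  have uniq : ∀ (E : Type) [TopologicalSpace E] (q : C(E, X)), IsCoveringMap q →
      ∀ (F G : C(U, E)) (u : U), (∀ v, q (F v) = p v) → (∀ v, q (G v) = p v) → F u = G u →
      F = G := by
    intro E _ q hq F G u hF hG h
    have := hq.eq_of_comp_eq F.continuous G.continuous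
      (funext fun v => (hF v).trans (hG v).symm) u h
    exact ContinuousMap.ext fun v => congrFun this v
  let m : FundamentalGroup X (p u₀) → p ⁻¹' {p u₀} := fun g =>
    hp.monodromy (x := p u₀) (y := p u₀) (g⁻¹ : FundamentalGroup X (p u₀)) ⟨u₀, rfl⟩
  have hT : ∀ g : FundamentalGroup X (p u₀), ∃ F : C(U, U), F u₀ = (m g).1 ∧ ∀ v, p (F v) = p v := by
    intro g
    obtain ⟨F, ⟨h1, h2⟩, -⟩ := lift U p hp u₀ (m g).1 (m g).2
    exact ⟨F, h1, fun v => congrFun h2 v⟩
  choose T hT0 hTp using hT
  have T_one : T 1 = ContinuousMap.id U := by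
    apply uniq U p hp _ _ u₀ (hTp 1) (fun v => rfl)
    rw [hT0]
    have h1 : m 1 = ⟨u₀, rfl⟩ := by
      show hp.monodromy (x := p u₀) (y := p u₀) ((1 : FundamentalGroup X (p u₀))⁻¹ :
        FundamentalGroup X (p u₀)) ⟨u₀, rfl⟩ = _
      rw [inv_one]
      exact congrFun hp.monodromy_refl _
    rw [h1]
    rfl
  have T_mul : ∀ g h, T (g * h) = (T g).comp (T h) := by
    intro g h
    apply uniq U p hp _ _ u₀ (hTp _) (fun v => by
      rw [ContinuousMap.comp_apply, hTp, hTp])
    rw [ContinuousMap.comp_apply, hT0, hT0]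
    have h1 := nat_mono hp hp (T g) (hTp g) (x := p u₀) (y := p u₀)
      (h⁻¹ : FundamentalGroup X (p u₀)) ⟨u₀, rfl⟩ (m g) (hT0 g)
    rw [← h1]
    congr 1
    show hp.monodromy (x := p u₀) (y := p u₀) ((g * h)⁻¹ : FundamentalGroup X (p u₀)) ⟨u₀, rfl⟩ = _
    rw [mul_inv_rev]
    exact hp.monodromy_trans_apply (x := p u₀) (y := p u₀) (z := p u₀)
      (g⁻¹ : FundamentalGroup X (p u₀)) (h⁻¹ : FundamentalGroup X (p u₀)) ⟨u₀, rfl⟩
  have free : ∀ (g : FundamentalGroup X (p u₀)) (u : U), T g u = u → g = 1 := by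
    intro g u hu
    have h1 : T g = ContinuousMap.id U := uniq U p hp _ _ u (hTp g) (fun v => rfl) hu
    have h2 : (m g).1 = u₀ := by
      rw [← hT0, h1]
      rfl
    obtain ⟨a, ha⟩ := loop_lift hp u₀ (g⁻¹ : FundamentalGroup X (p u₀)) h2
    have h3 : a = Path.Homotopic.Quotient.refl u₀ := Subsingleton.elim _ _
    have h4 : (g⁻¹ : FundamentalGroup X (p u₀)) = 1 := by
      rw [← ha, h3]
      rfl
    exact inv_eq_one.1 h4
  have trans : ∀ u u' : U, p u = p u' → ∃ g : FundamentalGroup X (p u₀), T g u = u' := by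
    intro u u' huu'
    obtain ⟨F, ⟨h1, h2⟩, -⟩ := lift U p hp u u' huu'.symm
    have h2' : ∀ v, p (F v) = p v := fun v => congrFun h2 v
    -- a path in `U` from `u₀` to `F u₀`
    let δ : Path u₀ (F u₀) := PathConnectedSpace.somePath u₀ (F u₀)
    let b : Path.Homotopic.Quotient (p u₀) (p u₀) :=
      ((Path.Homotopic.Quotient.mk δ).map p).cast rfl (h2' u₀).symm
    refine ⟨((b : FundamentalGroup X (p u₀))⁻¹ : FundamentalGroup X (p u₀)), ?_⟩
    have h3 : T ((b : FundamentalGroup X (p u₀))⁻¹ : FundamentalGroup X (p u₀)) = F := by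
      apply uniq U p hp _ _ u₀ (hTp _) h2'
      rw [hT0]
      show (hp.monodromy (x := p u₀) (y := p u₀)
        (((b : FundamentalGroup X (p u₀))⁻¹)⁻¹ : FundamentalGroup X (p u₀)) ⟨u₀, rfl⟩).1 = _
      rw [inv_inv]
      exact congrArg Subtype.val (hp.monodromy_eq_of_map_eq (γ := b) (ex := ⟨u₀, rfl⟩)
        (ey := ⟨F u₀, h2' u₀⟩) (Path.Homotopic.Quotient.mk δ) rfl)
    rw [h3, h1]
  exact ⟨T, T_one, T_mul, hTp, free, trans, hT0⟩

/-- the package -/
theorem package (M : Type) [TopologicalSpace M] [PathConnectedSpace M]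
    [LocallyPathConnectedSpace M] (hs : SLSC M) (f : C(M, M)) (hf : IsCoveringMap f) (x : M) :
    ∃ (E : Type) (_ : TopologicalSpace E) (p : C(E, M)) (h : E ≃ₜ E)
      (_ : MulAction (FundamentalGroup M (f x)) E)
      (φ : FundamentalGroup M (f x) →* FundamentalGroup M (f x)),
      SimplyConnectedSpace E ∧ LocallyPathConnectedSpace E ∧ IsCoveringMap p ∧
      Function.Surjective p ∧
      (∀ g : FundamentalGroup M (f x), Continuous (fun u : E => g • u)) ∧
      (∀ (g : FundamentalGroup M (f x)) (u : E), p (g • u) = p u) ∧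
      (∀ (g : FundamentalGroup M (f x)) (u : E), g • u = u → g = 1) ∧
      (∀ u u' : E, p u = p u' → ∃ g : FundamentalGroup M (f x), g • u = u') ∧
      (∀ u, p (h u) = f (p u)) ∧
      (∀ (g : FundamentalGroup M (f x)) (u : E), h (g • u) = φ g • h u) ∧
      Function.Injective φ ∧ φ.range = (FundamentalGroup.map f x).range := by
  obtain ⟨E, tE, p, u₁, γ₀, hp, hE, himg⟩ := Ex.main M hs (f x) ⊥
  haveI := hE
  haveI : SimplyConnectedSpace E := Uni.main M E p hp hE u₁ (f x) γ₀ himg.symm
  haveI : LocallyPathConnectedSpace E := lpc_cover p hp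
  have hsurj := cover_surj p hp
  obtain ⟨u₀, hu₀⟩ := hsurj (f x)
  obtain ⟨T, T1, Tm, Tp, Tf, Tt, T0⟩ := deck p hp (f x) u₀ hu₀
  have uniq : ∀ {X : Type} [TopologicalSpace X] {W : Type} [TopologicalSpace W] (q : C(W, X)),
      IsCoveringMap q →
      ∀ (F G : C(E, W)) (u : E), (∀ v, q (F v) = q (G v)) → F u = G u → F = G := by
    intro X _ W _ q hq F G u hFG h
    have := hq.eq_of_comp_eq F.continuous G.continuous (funext fun v => hFG v) u h
    exact ContinuousMap.ext fun v => congrFun this v
  -- the lift `p'` of `p` through `f`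
  obtain ⟨p', ⟨hp'0, hp'⟩, -⟩ := hf.existsUnique_continuousMap_lifts p u₀ x hu₀.symm
  have hp'' : ∀ u, f (p' u) = p u := fun u => congrFun hp' u
  -- the lift `k` of `p'` through `p`
  obtain ⟨e₀, he₀⟩ := hsurj x
  obtain ⟨k, ⟨hk0, hk⟩, -⟩ := hp.existsUnique_continuousMap_lifts p' u₀ e₀ (he₀.trans hp'0.symm)
  have hk' : ∀ u, p (k u) = p' u := fun u => congrFun hk u
  -- the lift `h` of `f ∘ p` through `p`
  obtain ⟨h, ⟨hh0, hh⟩, -⟩ := hp.existsUnique_continuousMap_lifts (f.comp p) e₀ u₀
    (by rw [ContinuousMap.comp_apply, he₀, hu₀])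
  have hh' : ∀ u, p (h u) = f (p u) := fun u => congrFun hh u
  have hhk : h.comp k = ContinuousMap.id E := by
    apply uniq p hp _ _ u₀
    · intro v
      rw [ContinuousMap.comp_apply, hh', hk', hp'', ContinuousMap.id_apply]
    · rw [ContinuousMap.comp_apply, hk0, hh0, ContinuousMap.id_apply]
  have hp'h : p'.comp h = p := by
    apply uniq f hf _ _ e₀
    · intro v
      rw [ContinuousMap.comp_apply, hp'', hh']
    · rw [ContinuousMap.comp_apply, hh0, hp'0, he₀]
  have hkh : k.comp h = ContinuousMap.id E := by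
    apply uniq p hp _ _ e₀
    · intro v
      rw [ContinuousMap.comp_apply, hk', ContinuousMap.id_apply]
      exact congrArg (fun F : C(E, M) => F v) hp'h
    · rw [ContinuousMap.comp_apply, hh0, hk0, ContinuousMap.id_apply]
  let H : E ≃ₜ E :=
    { toFun := h
      invFun := k
      left_inv := fun u => congrArg (fun F : C(E, E) => F u) hkh
      right_inv := fun u => congrArg (fun F : C(E, E) => F u) hhk
      continuous_toFun := h.continuous
      continuous_invFun := k.continuous }
  have hHu : ∀ u, H u = h u := fun _ => rfl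
  let act : MulAction (FundamentalGroup M (f x)) E :=
    { smul := fun g u => T g u
      one_smul := fun u => by
        show T 1 u = u
        rw [T1]
        rfl
      mul_smul := fun g h u => by
        show T (g * h) u = T g (T h u)
        rw [Tm]
        rfl }
  have hact : ∀ (g : FundamentalGroup M (f x)) (u : E), g • u = T g u := fun _ _ => rfl
  have Tinj : ∀ (g g' : FundamentalGroup M (f x)) (u : E), T g u = T g' u → g = g' := by
    intro g g' u hu
    have h1 : g'⁻¹ * g = 1 := by
      apply Tf _ u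
      rw [← hact, mul_smul, hact, hact, hu, ← hact, ← hact, inv_smul_smul]
    exact (inv_mul_eq_one.1 h1).symm
  -- the endomorphism
  have hφ : ∀ g : FundamentalGroup M (f x), ∃ g' : FundamentalGroup M (f x),
      ∀ u, h (T g u) = T g' (h u) := by
    intro g
    obtain ⟨g', hg'⟩ := Tt (h u₀) (h (T g u₀)) (by rw [hh', hh', Tp])
    refine ⟨g', fun u => ?_⟩
    have h1 : h.comp (T g) = (T g').comp h := by
      apply uniq p hp _ _ u₀
      · intro v
        rw [ContinuousMap.comp_apply, ContinuousMap.comp_apply, Tp, hh', hh', Tp]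
      · rw [ContinuousMap.comp_apply, ContinuousMap.comp_apply, hg']
    exact congrArg (fun F : C(E, E) => F u) h1
  choose φ0 hφ0 using hφ
  let φ : FundamentalGroup M (f x) →* FundamentalGroup M (f x) :=
    { toFun := φ0
      map_one' := by
        apply Tinj _ _ (h u₀)
        rw [← hφ0, T1]
        rfl
      map_mul' := fun g g' => by
        apply Tinj _ _ (h u₀)
        rw [← hφ0, Tm, Tm, ContinuousMap.comp_apply, ContinuousMap.comp_apply, hφ0, hφ0] }
  have hφu : ∀ g u, h (T g u) = T (φ g) (h u) := hφ0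
  refine ⟨E, tE, p, H, act, φ, inferInstance, inferInstance, hp, hsurj,
    fun g => (T g).continuous, fun g u => Tp g u, fun g u hu => Tf g u hu, Tt, hh', hφu, ?_, ?_⟩
  · intro g g' hgg'
    apply Tinj _ _ u₀
    apply H.injective
    rw [hHu, hHu, hφu, hφu, hgg']
  · -- the range
    have key : ∀ g : FundamentalGroup M (f x), g ∈ φ.range ↔ p' (T g u₀) = p' u₀ := by
      intro g
      constructor
      · rintro ⟨g', rfl⟩
        have h1 : T (φ g') u₀ = h (T g' e₀) := by rw [hφu, hh0]
        have h2 : ∀ v, p' (h v) = p v := fun v => congrArg (fun F : C(E, M) => F v) hp'h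
        rw [h1, h2, Tp, he₀, hp'0]
      · intro hg
        obtain ⟨g', hg'⟩ := Tt (k u₀) (k (T g u₀)) (by rw [hk', hk', hg])
        refine ⟨g', ?_⟩
        apply Tinj _ _ u₀
        have h3 : ∀ v, h (k v) = v := fun v => congrArg (fun F : C(E, E) => F v) hhk
        calc T (φ g') u₀ = T (φ g') (h (k u₀)) := by rw [h3]
          _ = h (T g' (k u₀)) := (hφu _ _).symm
          _ = T g u₀ := by rw [hg', h3]
    ext g
    rw [key, T0]
    have h1 := nat_mono hp hf p' hp'' (x := f x) (y := f x) (g⁻¹ : FundamentalGroup M (f x))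
      ⟨u₀, hu₀⟩ ⟨x, rfl⟩ hp'0
    rw [← h1, hp'0]
    constructor
    · intro h2
      obtain ⟨a, ha⟩ := loop_lift hf x (g⁻¹ : FundamentalGroup M (f x)) h2
      have h3 : g⁻¹ ∈ (FundamentalGroup.map f x).range := ⟨a, ha⟩
      exact (Subgroup.inv_mem_iff _).1 h3
    · intro h2
      obtain ⟨a, ha⟩ := (Subgroup.inv_mem_iff _).2 h2
      rw [← ha]
      exact congrArg Subtype.val (hf.monodromy_map a)

end Pool.Agent.TH631.SC.Pkg
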