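import Pool.Agent.TH631.SC.Fin
import Pool.Agent.TH631.SC.Pkg

/-! # Local contractibility of manifolds -/

set_option autoImplicit false

namespace Pool.Agent.TH631.SC.Mfd

open Topology Set Metric
open Pool.Agent.TH631.SC.Cov

/-- small contractible neighbourhoods in a manifold -/
theorem contr (n : ℕ) (M : Type*) [TopologicalSpace M] [ChartedSpace (EuclideanSpace ℝ (Fin n)) M]
    (x : M) (U : Set M) (hU : U ∈ 𝓝 x) :
    ∃ V : Set M, IsCompact V ∧ V ∈ 𝓝 x ∧ V ⊆ U ∧ ∃ H : ℝ → M → M,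
      ContinuousOn (fun z : ℝ × M => H z.1 z.2) (Icc 0 1 ×ˢ V) ∧
      (∀ t ∈ Icc (0 : ℝ) 1, ∀ y ∈ V, H t y ∈ V) ∧ (∀ y ∈ V, H 0 y = y) ∧
      (∀ y ∈ V, H 1 y = x) := by
  set φ := chartAt (EuclideanSpace ℝ (Fin n)) x with hφ
  have hx : x ∈ φ.source := mem_chart_source _ x
  have h1 : φ.target ∈ 𝓝 (φ x) := φ.open_target.mem_nhds (φ.map_source hx)
  have h2 : φ.symm ⁻¹' U ∈ 𝓝 (φ x) := by
    have := φ.symm.continuousAt (φ.map_source hx)
    apply this
    rwa [φ.left_inv hx]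
  obtain ⟨r, hr, hrs⟩ := Metric.nhds_basis_closedBall.mem_iff.1 (Filter.inter_mem h1 h2)
  have ht : closedBall (φ x) r ⊆ φ.target := fun y hy => (hrs hy).1
  have hcs : ContinuousOn φ.symm (closedBall (φ x) r) := φ.continuousOn_symm.mono ht
  refine ⟨φ.symm '' closedBall (φ x) r, (isCompact_closedBall _ _).image_of_continuousOn hcs,
    ?_, ?_, fun t y => φ.symm (φ y + t • (φ x - φ y)), ?_, ?_, ?_, ?_⟩
  · have h3 : φ.source ∩ φ ⁻¹' ball (φ x) r ∈ 𝓝 x :=
      Filter.inter_mem (φ.open_source.mem_nhds hx)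
        ((φ.continuousAt hx) (ball_mem_nhds _ hr))
    refine Filter.mem_of_superset h3 ?_
    rintro y ⟨hy, hy'⟩
    exact ⟨φ y, ball_subset_closedBall hy', φ.left_inv hy⟩
  · rintro _ ⟨y, hy, rfl⟩
    exact (hrs hy).2
  · have hin : ∀ z ∈ Icc (0 : ℝ) 1 ×ˢ (φ.symm '' closedBall (φ x) r),
        φ z.2 + z.1 • (φ x - φ z.2) ∈ closedBall (φ x) r := by
      rintro ⟨t, _⟩ ⟨ht', y, hy, rfl⟩
      simp only
      rw [φ.right_inv (ht hy)]
      have := (convex_closedBall (φ x) r) hy (mem_closedBall_self hr.le) (a := 1 - t) (b := t)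
        (by linarith [ht'.2]) ht'.1 (by ring)
      have e : y + t • (φ x - y) = (1 - t) • y + t • φ x := by module
      rw [e]
      exact this
    refine hcs.comp ?_ hin
    have hφc : ContinuousOn (fun z : ℝ × M => φ z.2)
        (Icc (0 : ℝ) 1 ×ˢ (φ.symm '' closedBall (φ x) r)) := by
      refine φ.continuousOn.comp continuous_snd.continuousOn ?_
      rintro ⟨t, _⟩ ⟨ht', y, hy, rfl⟩
      exact φ.map_target (ht hy)
    exact hφc.add (continuous_fst.continuousOn.smul (continuousOn_const.sub hφc))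
  · rintro t ht' _ ⟨y, hy, rfl⟩
    refine ⟨_, ?_, rfl⟩
    rw [φ.right_inv (ht hy)]
    have := (convex_closedBall (φ x) r) hy (mem_closedBall_self hr.le) (a := 1 - t) (b := t)
      (by linarith [ht'.2]) ht'.1 (by ring)
    have e : y + t • (φ x - y) = (1 - t) • y + t • φ x := by module
    rw [e]
    exact this
  · rintro _ ⟨y, hy, rfl⟩
    simp only [zero_smul, add_zero]
    rw [φ.right_inv (ht hy)]
  · rintro _ ⟨y, hy, rfl⟩
    simp only [one_smul, add_sub_cancel]
    exact φ.left_inv hx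

theorem locAc (n : ℕ) (M : Type*) [MetricSpace M] [CompactSpace M]
    [ChartedSpace (EuclideanSpace ℝ (Fin n)) M] : LocAc M := by
  intro x U hU
  obtain ⟨V, hVc, hVx, hVU, H, h1, h2, h3, h4⟩ := contr n M x U hU
  exact ⟨V, hVc.isClosed, hVx, hVU, fun q =>
    Pool.Agent.Helper554.Smith.Homot.acyclic_of_contract V hVc.isClosed x H h1 h2 h3 h4
      (mem_of_mem_nhds hVx) q⟩

theorem slsc (n : ℕ) (M : Type) [TopologicalSpace M]
    [ChartedSpace (EuclideanSpace ℝ (Fin n)) M] : SLSC M := by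
  intro x
  obtain ⟨V, hVc, hVx, hVU, H, h1, h2, h3, h4⟩ := contr n M x univ Filter.univ_mem
  refine ⟨V, hVx, ?_⟩
  have hc : Continuous (fun z : V × unitInterval => H z.2 z.1) := by
    have := h1.comp_continuous (f := fun z : V × unitInterval => ((z.2 : ℝ), (z.1 : M)))
      (by fun_prop) (fun z => ⟨z.2.2, z.1.2⟩)
    exact this
  refine Nh.main M V {x} ⟨fun z => H z.2 z.1, hc⟩ (fun v => ?_) (fun v => ?_) ?_
  · exact h3 v v.2
  · exact h4 v v.2
  · intro y γ h
    have hy : y = x := by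
      have := h 0
      rwa [γ.source] at this
    subst hy
    have : γ = Path.refl y := by
      ext t
      exact h t
    rw [this]

end Pool.Agent.TH631.SC.Mfd
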