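import Mathlib

/-! # The ring `F_3[u, u⁻¹, (1+u)⁻¹]` and its trilinear forms -/

set_option autoImplicit false

namespace Pool.Agent.TH631.SC.Rg

open Polynomial

instance : Fact (Nat.Prime 3) := ⟨Nat.prime_three⟩

/-- the inverted polynomial -/
noncomputable def s0 : (ZMod 3)[X] := X * (1 + X)

/-- the ring `F_3[u, u⁻¹, (1+u)⁻¹]` -/
abbrev R : Type := Localization.Away s0

theorem three_R : (3 : R) = 0 := by
  have h : ((3 : ℕ) : R) = 0 := by
    have : algebraMap (ZMod 3) R ((3 : ℕ) : ZMod 3) = ((3 : ℕ) : R) := map_natCast _ 3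
    rw [← this, ZMod.natCast_self, map_zero]
  exact_mod_cast h

theorem s0_ne : s0 ≠ 0 := by
  unfold s0
  refine mul_ne_zero X_ne_zero ?_
  intro h
  have := congrArg (fun q : (ZMod 3)[X] => q.coeff 0) h
  simp at this

instance : IsDomain R :=
  IsLocalization.isDomain_localization (M := Submonoid.powers s0)
    (powers_le_nonZeroDivisors_of_noZeroDivisors s0_ne)

theorem alg_inj : Function.Injective (algebraMap (ZMod 3)[X] R) :=
  IsLocalization.injective R (M := Submonoid.powers s0)
    (powers_le_nonZeroDivisors_of_noZeroDivisors s0_ne)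

/-- the class of `X` -/
noncomputable def u : R := algebraMap (ZMod 3)[X] R X

theorem isUnit_s0 : IsUnit (u * (1 + u)) := by
  have h := IsLocalization.Away.algebraMap_isUnit (S := R) s0
  have e : algebraMap (ZMod 3)[X] R s0 = u * (1 + u) := by
    simp [s0, u]
  rwa [e] at h

theorem isUnit_u : IsUnit u := isUnit_of_mul_isUnit_left isUnit_s0

theorem isUnit_v : IsUnit (-(1 + u)) := (isUnit_of_mul_isUnit_right isUnit_s0).neg

/-- the first unit -/
noncomputable def uU : Rˣ := isUnit_u.unit

/-- the second unit -/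
noncomputable def vU : Rˣ := isUnit_v.unit

theorem uU_val : (uU : R) = u := rfl

theorem vU_val : (vU : R) = -(1 + u) := rfl

theorem rel_uv : (1 : R) + uU + vU = 0 := by
  rw [uU_val, vU_val]; ring

/-- the character of `ℤ × ℤ` -/
noncomputable def ch (i j : ℤ) : Rˣ := uU ^ i * vU ^ j

theorem ch_zero : ch 0 0 = 1 := by simp [ch]

theorem ch_add (i j i' j' : ℤ) : ch (i + i') (j + j') = ch i j * ch i' j' := by
  simp only [ch, zpow_add]
  exact mul_mul_mul_comm _ _ _ _

/-- the uniformiser -/
noncomputable def w : R := u - 1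

/-- homomorphisms out of `R` -/
noncomputable def hm {B : Type*} [CommRing B] [Algebra (ZMod 3) B] (y : B) (h1 : IsUnit y)
    (h2 : IsUnit (1 + y)) : R →+* B :=
  IsLocalization.Away.lift (S := R) s0 (g := (aeval y : (ZMod 3)[X] →ₐ[ZMod 3] B).toRingHom) (by
    have : (aeval y : (ZMod 3)[X] →ₐ[ZMod 3] B).toRingHom s0 = y * (1 + y) := by
      simp [s0]
    rw [this]
    exact h1.mul h2)

theorem hm_alg {B : Type*} [CommRing B] [Algebra (ZMod 3) B] (y : B) (h1 : IsUnit y)
    (h2 : IsUnit (1 + y)) (q : (ZMod 3)[X]) : hm y h1 h2 (algebraMap _ R q) = aeval y q := by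
  unfold hm
  rw [IsLocalization.Away.lift_eq]
  rfl

theorem hm_u {B : Type*} [CommRing B] [Algebra (ZMod 3) B] (y : B) (h1 : IsUnit y)
    (h2 : IsUnit (1 + y)) : hm y h1 h2 u = y := by
  rw [u, hm_alg, aeval_X]

/-- evaluation at `u = 1` -/
noncomputable def ev : R →+* ZMod 3 := hm (1 : ZMod 3) isUnit_one (by
  rw [isUnit_iff_ne_zero]; decide)

theorem ev_u : ev u = 1 := hm_u _ _ _

theorem ev_w : ev w = 0 := by rw [w, map_sub, ev_u, map_one, sub_self]

theorem ev_v : ev (-(1 + u)) = 1 := by
  rw [map_neg, map_add, ev_u, map_one]; decide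

theorem ev_ch (i j : ℤ) : ev (ch i j : R) = 1 := by
  have h1 : Units.map ev.toMonoidHom uU = 1 := by
    ext
    exact ev_u
  have h2 : Units.map ev.toMonoidHom vU = 1 := by
    ext
    exact ev_v
  have h3 : Units.map ev.toMonoidHom (ch i j) = 1 := by
    rw [ch, map_mul, map_zpow, map_zpow, h1, h2]
    simp
  exact congrArg Units.val h3

/-- the kernel of the evaluation is generated by `w` -/
theorem ev_eq_zero_iff (x : R) : ev x = 0 ↔ w ∣ x := by
  constructor
  · intro h
    obtain ⟨⟨q, s⟩, hq⟩ := IsLocalization.surj (Submonoid.powers s0) x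
    simp only at hq
    have hs : IsUnit (algebraMap (ZMod 3)[X] R (s : (ZMod 3)[X])) :=
      IsLocalization.map_units R s
    have h1 : ev (algebraMap (ZMod 3)[X] R q) = 0 := by
      rw [← hq, map_mul, h, zero_mul]
    have h2 : q.eval 1 = 0 := by
      have h3 : ev (algebraMap (ZMod 3)[X] R q) = aeval (1 : ZMod 3) q := hm_alg _ _ _ q
      rw [h3] at h1
      simpa [aeval_def] using h1
    obtain ⟨r, hr⟩ := dvd_iff_isRoot.2 h2
    have h4 : w ∣ algebraMap (ZMod 3)[X] R q := by
      refine ⟨algebraMap _ R r, ?_⟩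
      rw [hr, map_mul]
      congr 1
      simp [w, u]
    rw [← hq] at h4
    exact (hs.dvd_mul_right).1 h4
  · rintro ⟨y, rfl⟩
    rw [map_mul, ev_w, zero_mul]

theorem w_ne : w ≠ 0 := by
  intro h
  have h1 : algebraMap (ZMod 3)[X] R (X - 1) = algebraMap (ZMod 3)[X] R 0 := by
    have : w = algebraMap (ZMod 3)[X] R (X - 1) := by simp [w, u]
    rw [← this, h, map_zero]
  have h2 := alg_inj h1
  have := congrArg (fun q : (ZMod 3)[X] => q.coeff 1) h2
  simp [coeff_one] at this

/-- `w` divides `χ - 1` -/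
theorem w_dvd_ch (i j : ℤ) : w ∣ (ch i j : R) - 1 := by
  rw [← ev_eq_zero_iff, map_sub, ev_ch, map_one, sub_self]

/-! ### power series -/

/-- power series over `F_3` -/
abbrev S : Type := PowerSeries (ZMod 3)

theorem three_S : (3 : S) = 0 := by
  have h : ((3 : ℕ) : S) = 0 := by
    have : algebraMap (ZMod 3) S ((3 : ℕ) : ZMod 3) = ((3 : ℕ) : S) := map_natCast _ 3
    rw [← this, ZMod.natCast_self, map_zero]
  exact_mod_cast h

/-- the variable -/
noncomputable abbrev T : S := PowerSeries.X

/-- inverse of `1 + T` -/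
noncomputable def a : S := (1 + T)⁻¹

/-- inverse of `1 - T` -/
noncomputable def b : S := (1 - T)⁻¹

theorem ha : (1 + T) * a = 1 := PowerSeries.mul_inv_cancel _ (by simp)

theorem hb : (1 - T) * b = 1 := PowerSeries.mul_inv_cancel _ (by simp)

theorem ca : PowerSeries.constantCoeff a = 1 := by
  have h := congrArg PowerSeries.constantCoeff ha
  simpa using h

theorem cb : PowerSeries.constantCoeff b = 1 := by
  have h := congrArg PowerSeries.constantCoeff hb
  simpa using h

theorem isUnit_a : IsUnit a := IsUnit.of_mul_eq_one (1 + T) (by rw [mul_comm]; exact ha)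

theorem isUnit_b : IsUnit b := IsUnit.of_mul_eq_one (1 - T) (by rw [mul_comm]; exact hb)

theorem isUnit_1T : IsUnit (1 + T : S) := IsUnit.of_mul_eq_one a ha

theorem isUnit_1mT : IsUnit (1 - T : S) := IsUnit.of_mul_eq_one b hb

theorem one_add_1 : 1 + (1 - T) * a = -a := by
  linear_combination (-1 : S) * ha + a * three_S

theorem one_add_2 : 1 + b = -((1 + T) * b) := by
  linear_combination (-1 : S) * hb + b * three_S

theorem one_add_3 : 1 + (1 + T) = -(1 - T) := by
  linear_combination three_S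

/-- the three homomorphisms -/
noncomputable def r1 : R →+* S := hm ((1 - T) * a) (isUnit_1mT.mul isUnit_a) (by
  rw [one_add_1]; exact isUnit_a.neg)

noncomputable def r2 : R →+* S := hm b isUnit_b (by
  rw [one_add_2]; exact (isUnit_1T.mul isUnit_b).neg)

noncomputable def r3 : R →+* S := hm (1 + T) isUnit_1T (by
  rw [one_add_3]; exact isUnit_1mT.neg)

theorem r1_u : r1 u = (1 - T) * a := hm_u _ _ _
theorem r2_u : r2 u = b := hm_u _ _ _
theorem r3_u : r3 u = 1 + T := hm_u _ _ _

theorem r_u : r1 u * r2 u * r3 u = 1 := by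
  rw [r1_u, r2_u, r3_u]
  linear_combination (1 - T) * b * ha + hb

theorem r_v : r1 (-(1 + u)) * r2 (-(1 + u)) * r3 (-(1 + u)) = 1 := by
  rw [map_neg, map_add, map_one, r1_u, map_neg, map_add, map_one, r2_u, map_neg, map_add, map_one,
    r3_u, one_add_1, one_add_2, one_add_3]
  linear_combination (1 - T) * b * ha + hb

theorem r_ch (i j : ℤ) : r1 (ch i j : R) * r2 (ch i j : R) * r3 (ch i j : R) = 1 := by
  have key : ∀ x : Rˣ, Units.map r1.toMonoidHom x * Units.map r2.toMonoidHom x *
      Units.map r3.toMonoidHom x = 1 ↔ r1 (x : R) * r2 (x : R) * r3 (x : R) = 1 := by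
    intro x
    rw [Units.ext_iff]
    rfl
  rw [← key]
  have h1 := (key uU).2 r_u
  have h2 := (key vU).2 r_v
  rw [ch, map_mul, map_mul, map_mul, map_zpow, map_zpow, map_zpow, map_zpow, map_zpow, map_zpow]
  generalize Units.map r1.toMonoidHom uU = x1 at *
  generalize Units.map r2.toMonoidHom uU = x2 at *
  generalize Units.map r3.toMonoidHom uU = x3 at *
  generalize Units.map r1.toMonoidHom vU = y1 at *
  generalize Units.map r2.toMonoidHom vU = y2 at *
  generalize Units.map r3.toMonoidHom vU = y3 at *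
  have e : x1 ^ i * y1 ^ j * (x2 ^ i * y2 ^ j) * (x3 ^ i * y3 ^ j) =
      (x1 * x2 * x3) ^ i * (y1 * y2 * y3) ^ j := by
    rw [mul_zpow, mul_zpow, mul_zpow, mul_zpow]
    simp only [mul_comm, mul_left_comm, mul_assoc]
  rw [e, h1, h2, one_zpow, one_zpow, one_mul]

theorem r1_w : r1 w = T * a := by
  rw [w, map_sub, map_one, r1_u]
  linear_combination ha - (T * a) * three_S

theorem r2_w : r2 w = T * b := by
  rw [w, map_sub, map_one, r2_u]
  linear_combination hb

theorem r3_w : r3 w = T := by
  rw [w, map_sub, map_one, r3_u]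
  ring

end Pool.Agent.TH631.SC.Rg
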