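import Pool.Agent.TH631.SC.Ring

/-! # The trilinear forms -/

set_option autoImplicit false

namespace Pool.Agent.TH631.SC.Rg

/-- parameters -/
abbrev Vm (m : ℕ) : Type := Fin m → ZMod 3

/-- the linear form on power series -/
noncomputable def lam {m : ℕ} (c : Vm m) (y : S) : ZMod 3 :=
  ∑ l : Fin m, c l * PowerSeries.coeff (3 * (l : ℕ) + 6) y

theorem lam_add {m : ℕ} (c : Vm m) (y z : S) : lam c (y + z) = lam c y + lam c z := by
  simp only [lam, map_add, mul_add, Finset.sum_add_distrib]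

theorem lam_zero {m : ℕ} (c : Vm m) : lam c 0 = 0 := by
  simp [lam]

theorem lam_neg {m : ℕ} (c : Vm m) (y : S) : lam c (-y) = -lam c y := by
  simp only [lam, map_neg, mul_neg, Finset.sum_neg_distrib]

theorem lam_sub {m : ℕ} (c : Vm m) (y z : S) : lam c (y - z) = lam c y - lam c z := by
  rw [sub_eq_add_neg, lam_add, lam_neg, sub_eq_add_neg]

theorem lam_csub {m : ℕ} (c c' : Vm m) (y : S) : lam (c - c') y = lam c y - lam c' y := by
  simp only [lam, Pi.sub_apply, sub_mul, Finset.sum_sub_distrib]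

theorem lam_van {m k : ℕ} (c : Vm m) (hk : 3 * m + 6 ≤ k) (y : S) (h : T ^ k ∣ y) :
    lam c y = 0 := by
  unfold lam
  refine Finset.sum_eq_zero ?_
  intro l _
  have hl : (l : ℕ) < m := l.2
  rw [PowerSeries.X_pow_dvd_iff.1 h _ (by omega), mul_zero]

/-- the trilinear form -/
noncomputable def bt {m : ℕ} (c : Vm m) (x y z : R) : ZMod 3 := lam c (r1 x * r2 y * r3 z)

theorem bt_add1 {m : ℕ} (c : Vm m) (x x' y z : R) :
    bt c (x + x') y z = bt c x y z + bt c x' y z := by
  rw [bt, map_add, add_mul, add_mul, lam_add]; rfl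

theorem bt_add2 {m : ℕ} (c : Vm m) (x y y' z : R) :
    bt c x (y + y') z = bt c x y z + bt c x y' z := by
  rw [bt, map_add, mul_add, add_mul, lam_add]; rfl

theorem bt_add3 {m : ℕ} (c : Vm m) (x y z z' : R) :
    bt c x y (z + z') = bt c x y z + bt c x y z' := by
  rw [bt, map_add, mul_add, lam_add]; rfl

theorem bt_sub1 {m : ℕ} (c : Vm m) (x x' y z : R) :
    bt c (x - x') y z = bt c x y z - bt c x' y z := by
  rw [bt, map_sub, sub_mul, sub_mul, lam_sub]; rfl

theorem bt_sub2 {m : ℕ} (c : Vm m) (x y y' z : R) :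
    bt c x (y - y') z = bt c x y z - bt c x y' z := by
  rw [bt, map_sub, mul_sub, sub_mul, lam_sub]; rfl

theorem bt_sub3 {m : ℕ} (c : Vm m) (x y z z' : R) :
    bt c x y (z - z') = bt c x y z - bt c x y z' := by
  rw [bt, map_sub, mul_sub, lam_sub]; rfl

theorem bt_csub {m : ℕ} (c c' : Vm m) (x y z : R) :
    bt (c - c') x y z = bt c x y z - bt c' x y z := lam_csub _ _ _

theorem bt_ch {m : ℕ} (c : Vm m) (i j : ℤ) (x y z : R) :
    bt c ((ch i j : R) * x) ((ch i j : R) * y) ((ch i j : R) * z) = bt c x y z := by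
  have e : r1 ((ch i j : R) * x) * r2 ((ch i j : R) * y) * r3 ((ch i j : R) * z) =
      r1 x * r2 y * r3 z := by
    rw [map_mul, map_mul, map_mul]
    linear_combination (r1 x * r2 y * r3 z) * r_ch i j
  rw [bt, e]; rfl

theorem bt_van {m k : ℕ} (c : Vm m) (hk : 3 * m + 6 ≤ k) (x y z : R) (h : w ^ k ∣ z) :
    bt c x y z = 0 := by
  obtain ⟨z', rfl⟩ := h
  refine lam_van c hk _ ⟨r1 x * r2 y * r3 z', ?_⟩
  rw [map_mul, map_pow, r3_w]
  ring

/-- the alternating sum -/
noncomputable def alt {m : ℕ} (c : Vm m) (x y z : R) : ZMod 3 :=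
  (bt c x y z - bt c y x z) + (bt c y z x - bt c z y x) + (bt c z x y - bt c x z y)

theorem alt_w {m : ℕ} (c : Vm m) (l : ℕ) :
    alt c (w ^ l) (w ^ (l + 1)) (w ^ (l + 2)) = lam c (T ^ (3 * l + 6) * (a * b) ^ (l + 2)) := by
  unfold alt bt
  rw [← lam_sub, ← lam_sub, ← lam_sub, ← lam_add, ← lam_add]
  congr 1
  simp only [map_pow, r1_w, r2_w, r3_w]
  have h1 : b - a = -(T * a * b) := by
    linear_combination (-b) * ha + a * hb + (T * a * b) * three_S
  have h2 : 1 - a = T * a := by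
    linear_combination (-1 : S) * ha
  have h3 : 1 - b = -(T * b) := by
    linear_combination (-1 : S) * hb
  have e : ∀ e1 e2 e3 : S, e1 ^ l * e2 ^ (l + 1) * e3 ^ (l + 2) - e1 ^ (l + 1) * e2 ^ l * e3 ^ (l + 2)
      + (e1 ^ (l + 1) * e2 ^ (l + 2) * e3 ^ l - e1 ^ (l + 2) * e2 ^ (l + 1) * e3 ^ l)
      + (e1 ^ (l + 2) * e2 ^ l * e3 ^ (l + 1) - e1 ^ l * e2 ^ (l + 2) * e3 ^ (l + 1)) =
      (e1 ^ l * e2 ^ l * e3 ^ l) * ((e2 - e1) * (e3 - e1) * (e3 - e2)) := by
    intro e1 e2 e3
    ring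
  rw [e]
  have f1 : T * b - T * a = -(T ^ 2 * a * b) := by
    linear_combination T * h1
  have f2 : T - T * a = T ^ 2 * a := by
    linear_combination T * h2
  have f3 : T - T * b = -(T ^ 2 * b) := by
    linear_combination T * h3
  rw [f1, f2, f3]
  ring

theorem lam_top {m : ℕ} (c : Vm m) (l : Fin m) (h : ∀ l' : Fin m, l < l' → c l' = 0) :
    lam c (T ^ (3 * (l : ℕ) + 6) * (a * b) ^ ((l : ℕ) + 2)) = c l := by
  unfold lam
  rw [Finset.sum_eq_single l]
  · have : PowerSeries.coeff (3 * (l : ℕ) + 6)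
        (T ^ (3 * (l : ℕ) + 6) * (a * b) ^ ((l : ℕ) + 2)) = 1 := by
      have h0 := PowerSeries.coeff_X_pow_mul ((a * b) ^ ((l : ℕ) + 2)) (3 * (l : ℕ) + 6) 0
      rw [zero_add] at h0
      rw [h0, PowerSeries.coeff_zero_eq_constantCoeff_apply, map_pow, map_mul, ca, cb]
      simp
    rw [this, mul_one]
  · intro l' _ hne
    rcases lt_or_gt_of_ne hne with hlt | hgt
    · have hl : (l' : ℕ) < l := hlt
      have : PowerSeries.coeff (3 * (l' : ℕ) + 6)
        (T ^ (3 * (l : ℕ) + 6) * (a * b) ^ ((l : ℕ) + 2)) = 0 := by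
        refine PowerSeries.X_pow_dvd_iff.1 (Dvd.intro _ rfl) _ (by omega)
      rw [this, mul_zero]
    · rw [h l' hgt, zero_mul]
  · intro h'
    exact absurd (Finset.mem_univ l) h'

/-- nondegeneracy: the alternating sum determines the parameter -/
theorem alt_zero {m : ℕ} (c : Vm m) (h : ∀ x y z : R, alt c x y z = 0) : c = 0 := by
  by_contra hc
  have hne : (Finset.univ.filter (fun l : Fin m => c l ≠ 0)).Nonempty := by
    by_contra hh
    rw [Finset.not_nonempty_iff_eq_empty] at hh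
    apply hc
    funext l
    by_contra hl
    have : l ∈ Finset.univ.filter (fun l : Fin m => c l ≠ 0) := by
      rw [Finset.mem_filter]
      exact ⟨Finset.mem_univ _, hl⟩
    rw [hh] at this
    exact absurd this (Finset.notMem_empty _)
  have hm := Finset.max'_mem _ hne
  rw [Finset.mem_filter] at hm
  apply hm.2
  rw [← lam_top c _ ?_, ← alt_w]
  · exact h _ _ _
  · intro l' hl'
    by_contra hne'
    have := Finset.le_max' (Finset.univ.filter (fun l : Fin m => c l ≠ 0)) l' (by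
      rw [Finset.mem_filter]
      exact ⟨Finset.mem_univ _, hne'⟩)
    exact absurd hl' (not_lt.2 this)

end Pool.Agent.TH631.SC.Rg
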